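import Pool.Agent.Work.MP_51e72e_nt.SysSieve

/-!
Smoothing, gluing and expectation lemmas for the weighted Chebyshev argument.
-/

set_option autoImplicit false

namespace Pool.Agent.Work.MP_51e72e_nt.SL

open Finset Filter Pool.Agent.Lib.ANT Pool.Agent.Work.MP_51e72e_nt.Cub
  Pool.Agent.Work.MP_51e72e_nt.Cub.Sv Pool.Agent.Work.MP_51e72e_nt.Sys

lemma glue (R : Finset ℕ) (hR : ∀ p ∈ R, p.Prime) (F : ℕ → Polynomial ℤ) :
    ∃ G : Polynomial ℤ, ∀ p ∈ R, ∀ t : ℤ, (p : ℤ) ∣ G.eval t ↔ (p : ℤ) ∣ (F p).eval t := by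
  refine ⟨∑ q ∈ R, Polynomial.C ((∏ r ∈ R.erase q, (r : ℤ)) ^ (q - 1)) * F q, fun p hp t => ?_⟩
  refine dvd_iff_dvd_of_dvd_sub ?_
  rw [Polynomial.eval_finsetSum, ← add_sum_erase _ _ hp]
  simp only [Polynomial.eval_mul, Polynomial.eval_C]
  have h1 : (p : ℤ) ∣ (∏ r ∈ R.erase p, (r : ℤ)) ^ (p - 1) - 1 := by
    refine (Int.ModEq.pow_card_sub_one_eq_one (hR p hp) ?_).symm.dvd
    refine IsCoprime.prod_left fun r hr => Nat.isCoprime_iff_coprime.2 ?_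
    exact (Nat.coprime_primes (hR r (mem_erase.1 hr).2) (hR p hp)).2 (mem_erase.1 hr).1
  have h2 : (p : ℤ) ∣ ∑ q ∈ R.erase p, (∏ r ∈ R.erase q, (r : ℤ)) ^ (q - 1) * (F q).eval t := by
    refine dvd_sum fun q hq => Dvd.dvd.mul_right ?_ _
    have := (hR q (mem_erase.1 hq).2).two_le
    exact dvd_pow (dvd_prod_of_mem (fun r : ℕ => (r : ℤ))
      (mem_erase.2 ⟨(mem_erase.1 hq).1.symm, hp⟩)) (by omega)
  have h3 := (h1.mul_right ((F p).eval t)).add h2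
  convert h3 using 1
  ring

lemma omega_congr {f G : Polynomial ℤ} {p : ℕ}
    (h : ∀ t : ℤ, (p : ℤ) ∣ G.eval t ↔ (p : ℤ) ∣ f.eval t) : omega G p = omega f p :=
  congrArg card (filter_congr fun n _ => h n)

lemma sm_split (φ : ℤ → ℝ) {N L v : ℕ} (hv : v < L) :
    ∑ u ∈ Icc 1 (N + L), φ ((u : ℤ) - v) =
      ∑ t ∈ Icc 1 N, φ t + ∑ u ∈ Icc 1 (N + L) \ Icc (1 + v) (N + v), φ ((u : ℤ) - v) := by
  have hs : Icc (1 + v) (N + v) ⊆ Icc 1 (N + L) := Icc_subset_Icc (by omega) (by omega)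
  rw [← sum_sdiff hs, add_comm, ← map_add_right_Icc, sum_map]
  simp

lemma sm_up {N L : ℕ} (hL : 0 < L) (φ : ℤ → ℝ) (h0 : ∀ t, 0 ≤ φ t) :
    ∑ t ∈ Icc 1 N, φ t ≤ (∑ z ∈ Icc 1 (N + L) ×ˢ range L, φ ((z.1 : ℤ) - z.2)) / L := by
  rw [le_div_iff₀ (by positivity), sum_product_right]
  refine le_trans (le_of_eq ?_) (card_nsmul_le_sum _ _ (∑ t ∈ Icc 1 N, φ t) fun v hv => ?_)
  · rw [card_range, nsmul_eq_mul, mul_comm]
  · rw [sm_split φ (mem_range.1 hv)]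
    exact le_add_of_nonneg_right (sum_nonneg fun _ _ => h0 _)

lemma sm_lo {N L : ℕ} (hL : 0 < L) (φ : ℤ → ℝ) (ν : ℕ → ℝ) {Bd : ℝ}
    (h1 : ∀ t ∈ Icc 1 N, φ t ≤ ν t) (h2 : ∀ t : ℤ, t.natAbs ≤ N + L → φ t ≤ Bd) :
    (∑ z ∈ Icc 1 (N + L) ×ˢ range L, φ ((z.1 : ℤ) - z.2)) / L ≤
      ∑ t ∈ Icc 1 N, ν t + L * Bd := by
  rw [div_le_iff₀ (by positivity), sum_product_right]
  refine le_trans (sum_le_card_nsmul _ _ (∑ t ∈ Icc 1 N, ν t + L * Bd) fun v hv => ?_)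
    (le_of_eq ?_)
  · have hv' := mem_range.1 hv
    rw [sm_split φ hv']
    refine add_le_add (sum_le_sum h1) ((sum_le_card_nsmul _ _ Bd fun u hu => h2 _ ?_).trans
      (le_of_eq ?_))
    · have := mem_Icc.1 (mem_sdiff.1 hu).1
      omega
    · rw [card_sdiff_of_subset (Icc_subset_Icc (by omega) (by omega)), Nat.card_Icc, Nat.card_Icc,
        nsmul_eq_mul]
      congr 2
      omega
  · rw [card_range, nsmul_eq_mul, mul_comm]

variable {g h : ℕ → ℝ} {P Q Q' : Finset ℕ} {ξ : ℝ}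

lemma EX_mul {X Z : Finset ℕ → ℝ} {C C' M M' : ℝ} (hX : Rep Q X C M) (hZ : Rep Q' Z C' M')
    (hQ : Q ⊆ P) (hQ' : Q' ⊆ P) (hd : Disjoint Q Q') :
    EX g P (X * Z) = EX g P X * EX g P Z := by
  obtain ⟨c, -, -, rfl⟩ := hX
  obtain ⟨c', -, -, rfl⟩ := hZ
  rw [sum_mul_sum, map_sum, map_sum, map_sum, sum_mul_sum]
  refine sum_congr rfl fun T hT => ?_
  rw [map_sum]
  refine sum_congr rfl fun U hU => ?_
  have a1 := mem_powerset.1 hT
  have a2 := mem_powerset.1 hU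
  rw [smul_mul_smul_comm, ind_mul, map_smul, map_smul, map_smul, EX_ind _ (a1.trans hQ),
    EX_ind _ (a2.trans hQ'), EX_ind _ (union_subset (a1.trans hQ) (a2.trans hQ')),
    prod_union (hd.mono a1 a2)]
  simp only [smul_eq_mul]
  ring

lemma EX_psi_sq (hsub : Q ⊆ P) (hg : ∀ p ∈ P, (1 - g p) * h p = g p) :
    EX g P (Psi h Q ξ * Psi h Q ξ) = ∑ l ∈ Q.powerset, psiA ξ l ^ 2 * ∏ p ∈ l, h p := by
  have := psi_EX_sq (g := g) (h := h) (Ps := P) 1 Q.powerset (psiA ξ) 1 fun l hl l' hl' => by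
    rw [one_mul, one_mul, EX_ph hg ((mem_powerset.1 hl).trans hsub)
      ((mem_powerset.1 hl').trans hsub)]
  rwa [one_mul, one_mul] at this

lemma EX_psi_le (hsub : Q ⊆ P) (h0 : ∀ p ∈ P, 0 ≤ h p) (hg : ∀ p ∈ P, (1 - g p) * h p = g p)
    (hξ : 1 < ξ) : EX g P (Psi h Q ξ * Psi h Q ξ) ≤ ∏ p ∈ Q, (1 + h p) := by
  rw [EX_psi_sq hsub hg, prod_one_add]
  exact sum_le_sum fun l hl => mul_le_of_le_one_left
    (prod_nonneg fun p hp => h0 p (hsub (mem_powerset.1 hl hp)))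
    (pow_le_one₀ (psiA_nonneg l) (psiA_le_one (Real.log_pos hξ) l))

theorem EX_Xi' (hQ : ∀ p ∈ Q, p.Prime) (hsub : Q ⊆ P) (h0 : ∀ p ∈ P, 0 ≤ h p)
    (hg : ∀ p ∈ P, (1 - g p) * h p = g p) (hξ : 1 < ξ) (h1 : ∀ p ∈ Q, (p : ℝ) ≤ ξ) {η : ℝ}
    (h2 : ∑ p ∈ Q, g p * Real.log p ≤ η * Real.log ξ) :
    (∏ p ∈ Q, (1 + h p)) * (1 - 3 * η) ≤ EX g P (Xi h Q ξ) := by
  have L0 : 0 < Real.log ξ := Real.log_pos hξ
  have g0 : ∀ p ∈ Q, 0 ≤ g p := fun p hp => by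
    have a1 := h0 p (hsub hp)
    have a2 := hg p (hsub hp)
    by_contra c
    nlinarith only [a1, a2, not_le.1 c]
  set Γ := ∏ p ∈ Q, (1 + h p) with hΓ
  have Γ0 : 0 ≤ Γ := prod_nonneg fun p hp => by linarith [h0 p (hsub hp)]
  set σ := ∑ p ∈ Q, g p * Real.log p with hσ
  have σ1 : σ / Real.log ξ ≤ η := (div_le_iff₀ L0).2 h2
  have H0 : ∀ l ∈ Q.powerset, 0 ≤ ∏ p ∈ l, h p := fun l hl =>
    prod_nonneg fun p hp => h0 p (hsub (mem_powerset.1 hl hp))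
  have k1 : Γ * (1 - 2 * (σ / Real.log ξ)) ≤ ∑ l ∈ Q.powerset, psiA ξ l ^ 2 * ∏ p ∈ l, h p := by
    have e : Γ * (1 - 2 * (σ / Real.log ξ)) = ∑ l ∈ Q.powerset,
        (1 - 2 * (Real.log (pr l) / Real.log ξ)) * ∏ p ∈ l, h p := by
      have e1 := psi_sum_log hQ fun p hp => hg p (hsub hp)
      calc _ = Γ - 2 / Real.log ξ * (Γ * σ) := by ring
        _ = _ := by
          rw [hΓ, hσ, ← e1, prod_one_add, mul_sum, ← sum_sub_distrib]
          exact sum_congr rfl fun l _ => by ring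
    rw [e]
    exact sum_le_sum fun l hl => mul_le_mul_of_nonneg_right (psiA_sq L0 l) (H0 l hl)
  have k2 := EX_psi_sq (ξ := ξ) hsub hg
  have k3 : ∀ p ∈ Q, EX g P (ind {p} * (Psi h Q ξ * Psi h Q ξ)) ≤
      Γ / Real.log ξ * (g p * Real.log p) := by
    intro p hp
    have sub : ∀ l ∈ (Q.erase p).powerset, l ⊆ Q := fun l hl =>
      (mem_powerset.1 hl).trans (erase_subset _ _)
    have nm : ∀ l ∈ (Q.erase p).powerset, p ∉ l := fun l hl c =>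
      notMem_erase p Q (mem_powerset.1 hl c)
    rw [psi_ind_mul hp, psi_EX_sq _ _ _ (g p) fun l hl l' hl' =>
      psi_EX_ind h0 hg (hsub hp) ((sub l hl).trans hsub) ((sub l' hl').trans hsub) (nm l hl)
        (nm l' hl')]
    have c1 : ∑ l ∈ (Q.erase p).powerset, (psiA ξ l - psiA ξ (insert p l)) ^ 2 * ∏ p ∈ l, h p ≤
        (Real.log p / Real.log ξ) ^ 2 * Γ := by
      rw [hΓ, prod_one_add, mul_sum]
      refine (sum_le_sum fun l hl => mul_le_mul_of_nonneg_right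
        (psiA_diff (hQ p hp) (fun q hq => hQ q (sub l hl hq)) (nm l hl))
        (H0 l (mem_powerset.2 (sub l hl)))).trans ?_
      exact sum_le_sum_of_subset_of_nonneg (powerset_mono.2 (erase_subset _ _))
        fun l hl _ => mul_nonneg (sq_nonneg _) (H0 l hl)
    have c2 : Real.log p / Real.log ξ ≤ 1 :=
      (div_le_one L0).2 (Real.log_le_log (Nat.cast_pos.2 (hQ p hp).pos) (h1 p hp))
    have c3 : 0 ≤ Real.log p / Real.log ξ := div_nonneg (Real.log_natCast_nonneg _) L0.le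
    have c4 : (Real.log p / Real.log ξ) ^ 2 ≤ Real.log p / Real.log ξ := by
      rw [sq]
      exact mul_le_of_le_one_left c3 c2
    calc _ ≤ g p * (Real.log p / Real.log ξ * Γ) :=
          mul_le_mul_of_nonneg_left (c1.trans (mul_le_mul_of_nonneg_right c4 Γ0)) (g0 p hp)
      _ = _ := by ring
  have k4 : EX g P (Xi h Q ξ) = EX g P (Psi h Q ξ * Psi h Q ξ) -
      ∑ p ∈ Q, EX g P (ind {p} * (Psi h Q ξ * Psi h Q ξ)) := by
    rw [Xi, mul_sub, mul_one, map_sub, mul_sum, map_sum]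
    simp only [mul_comm]
  have k5 : ∑ p ∈ Q, EX g P (ind {p} * (Psi h Q ξ * Psi h Q ξ)) ≤ Γ * (σ / Real.log ξ) := by
    refine (sum_le_sum k3).trans (le_of_eq ?_)
    rw [← mul_sum]; ring
  have k7 : Γ * (σ / Real.log ξ) ≤ Γ * η := mul_le_mul_of_nonneg_left σ1 Γ0
  rw [k4, k2]
  linarith only [k1, k5, k7]

lemma Xi_of_disj {T : Finset ℕ} (hd : Disjoint Q T) :
    Xi h Q ξ T = Psi h Q ξ T * Psi h Q ξ T := by
  simp only [Xi, Pi.mul_apply, Pi.sub_apply, Pi.one_apply, Finset.sum_apply]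
  rw [sum_eq_zero fun p hp => by simp [ind, disjoint_left.1 hd hp], sub_zero, mul_one]

/-- the second moment weight -/
noncomputable def Ph (h : ℕ → ℝ) (Q : Finset ℕ) : Finset ℕ → ℝ :=
  ∑ l ∈ insert ∅ (Q.image fun p => ({p} : Finset ℕ)), ph h l

lemma Ph_disj {T : Finset ℕ} (hd : Disjoint Q T) : Ph h Q T = 1 + ∑ p ∈ Q, h p := by
  rw [Ph, Finset.sum_apply, sum_insert (by simp), sum_image fun _ _ _ _ e => singleton_injective e]
  refine congrArg₂ _ (by simp [ph]) ?_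
  exact sum_congr rfl fun p hp => by simp [ph, disjoint_left.1 hd hp]

lemma Ph_sub : ∀ l ∈ insert ∅ (Q.image fun p => ({p} : Finset ℕ)), l = ∅ ∨ ∃ p ∈ Q, l = {p} := by
  intro l hl
  rcases mem_insert.1 hl with e | e
  · exact Or.inl e
  · obtain ⟨p, hp, rfl⟩ := mem_image.1 e
    exact Or.inr ⟨p, hp, rfl⟩

lemma EX_Ph (hsub : Q ⊆ P) (hg : ∀ p ∈ P, (1 - g p) * h p = g p) :
    EX g P (Ph h Q * Ph h Q) = 1 + ∑ p ∈ Q, h p := by
  rw [← Ph_disj (disjoint_empty_right Q)]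
  refine EX_sq hg _ id (fun l hl => ?_) fun _ _ _ _ e => e
  rcases Ph_sub l hl with rfl | ⟨p, hp, rfl⟩
  · exact empty_subset _
  · exact singleton_subset_iff.2 (hsub hp)

lemma rep_Ph (hQ : ∀ p ∈ Q, p.Prime) (h0 : ∀ p ∈ Q, 0 ≤ h p) {M : ℝ} (hM : 1 ≤ M)
    (h1 : ∀ p ∈ Q, (p : ℝ) ≤ M) : Rep Q (Ph h Q) (∏ p ∈ Q, (1 + h p)) M := by
  refine rep_ph hQ h0 fun l hl => ?_
  rcases Ph_sub l hl with rfl | ⟨p, hp, rfl⟩
  · exact ⟨empty_subset _, by simpa [pr] using hM⟩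
  · exact ⟨singleton_subset_iff.2 hp, by simpa [pr] using h1 p hp⟩

/-- the weighted number of primes -/
noncomputable def Lg (Q : Finset ℕ) : Finset ℕ → ℝ := ∑ p ∈ Q, Real.log p • ind {p}

lemma rep_Lg {C M : ℝ} (hC : 0 ≤ C) (h1 : ∀ p ∈ Q, Real.log p ≤ C ∧ (p : ℝ) ≤ M) :
    Rep Q (Lg Q) C M := by
  have := rep_of (Q := Q) Q (fun p => {p}) (fun p => Real.log p) (C := C) (M := M) (K := 1) hC
    (by simp) (fun p hp => by rw [abs_of_nonneg (Real.log_natCast_nonneg _)]; exact (h1 p hp).1)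
    (fun p hp _ => by simpa [pr] using (h1 p hp).2)
    (fun U _ _ => card_le_one.2 fun a ha b hb =>
      singleton_injective ((mem_filter.1 ha).2.trans (mem_filter.1 hb).2.symm))
  simpa [Lg] using this

lemma EX_Lg (hsub : Q ⊆ P) : EX g P (Lg Q) = ∑ p ∈ Q, Real.log p * g p := by
  rw [Lg, map_sum]
  exact sum_congr rfl fun p hp => by
    rw [map_smul, EX_ind _ (singleton_subset_iff.2 (hsub hp)), prod_singleton, smul_eq_mul]

lemma Lg_apply (T : Finset ℕ) : Lg Q T = ∑ p ∈ Q, Real.log p * if p ∈ T then 1 else 0 := by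
  simp [Lg, Finset.sum_apply, ind]

lemma prod_hh_le' {f : Polynomial ℤ} {D Z : ℕ} {Ps : Finset ℕ} (hZ : 2 ≤ Z)
    (h : ∀ p ∈ Ps, p.Prime ∧ p ≤ Z ∧ omega f p ≤ D ∧ 2 * D ≤ p) :
    ∏ p ∈ Ps, (1 + hh f p) ≤ Real.exp (144 * D) * Real.log Z ^ (2 * D) := by
  have h1 := (abs_le.mp (abs_sum_inv_prime_sub_loglog_le Z hZ)).2
  have h2 : ∑ p ∈ Ps, (p : ℝ)⁻¹ ≤ ∑ p ∈ (Ioc 0 Z).filter Nat.Prime, (p : ℝ)⁻¹ :=
    sum_le_sum_of_subset_of_nonneg (fun p hp => mem_filter.mpr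
      ⟨mem_Ioc.mpr ⟨(h p hp).1.pos, (h p hp).2.1⟩, (h p hp).1⟩) fun _ _ _ => by positivity
  have hl : 0 < Real.log Z := Real.log_pos (by exact_mod_cast hZ)
  have h3 : ∀ p ∈ Ps, 0 ≤ hh f p ∧ hh f p ≤ 2 * D * (p : ℝ)⁻¹ := fun p hp => by
    obtain ⟨a1, -, a2, a3⟩ := h p hp
    have b0 : (0 : ℝ) < p := Nat.cast_pos.2 a1.pos
    have b1 : (omega f p : ℝ) ≤ D := Nat.cast_le.2 a2
    have b2 : 2 * (D : ℝ) ≤ p := by exact_mod_cast a3
    have b3 : (0 : ℝ) ≤ omega f p := Nat.cast_nonneg _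
    refine ⟨div_nonneg b3 (by linarith only [b0, b1, b2]), ?_⟩
    rw [hh, ← div_eq_mul_inv, div_le_div_iff₀ (by linarith only [b0, b1, b2]) b0]
    nlinarith only [b0, b1, b2, b3]
  have d0 : (0 : ℝ) ≤ D := Nat.cast_nonneg D
  calc _ ≤ ∏ p ∈ Ps, Real.exp (2 * D * (p : ℝ)⁻¹) :=
        prod_le_prod (fun p hp => by linarith [(h3 p hp).1]) fun p hp => by
          linarith only [(h3 p hp).2, Real.add_one_le_exp (2 * D * (p : ℝ)⁻¹)]
    _ ≤ Real.exp (144 * D + (2 * D : ℕ) * Real.log (Real.log Z)) := by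
        rw [← Real.exp_sum, ← mul_sum, Real.exp_le_exp]
        push_cast
        nlinarith only [h1, h2, d0]
    _ = _ := by rw [Real.exp_add, Real.exp_nat_mul, Real.exp_log hl]

lemma sum_log_le' {f : Polynomial ℤ} {D Z : ℕ} {Q : Finset ℕ} (Z0 : 0 < Z)
    (h : ∀ p ∈ Q, p.Prime ∧ p ≤ Z ∧ omega f p ≤ D) :
    ∑ p ∈ Q, (omega f p : ℝ) / p * Real.log p ≤ D * (Real.log Z + 14) := by
  have h1 := (abs_le.mp (abs_sum_log_div_prime_sub_log_le Z Z0)).2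
  calc _ ≤ ∑ p ∈ Q, D * (Real.log p / p) := sum_le_sum fun p hp => by
        rw [div_mul_eq_mul_div, mul_div_assoc]
        exact mul_le_mul_of_nonneg_right (Nat.cast_le.2 (h p hp).2.2)
          (div_nonneg (Real.log_natCast_nonneg _) (Nat.cast_nonneg _))
    _ ≤ ∑ p ∈ (Ioc 0 Z).filter Nat.Prime, D * (Real.log p / p) :=
        sum_le_sum_of_subset_of_nonneg (fun p hp => mem_filter.mpr
          ⟨mem_Ioc.mpr ⟨(h p hp).1.pos, (h p hp).2.1⟩, (h p hp).1⟩) fun _ _ _ =>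
          mul_nonneg (Nat.cast_nonneg _)
            (div_nonneg (Real.log_natCast_nonneg _) (Nat.cast_nonneg _))
    _ ≤ _ := by
        rw [← mul_sum]
        exact mul_le_mul_of_nonneg_left (by linarith only [h1]) (Nat.cast_nonneg _)

end Pool.Agent.Work.MP_51e72e_nt.SL
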