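import Pool.Agent.Work.MP_51e72e_nt.SL.A

/-!
The sieve measure and its moments.
-/

set_option autoImplicit false

namespace Pool.Agent.Work.MP_51e72e_nt.SL

open Finset Filter Pool.Agent.Lib.ANT Pool.Agent.Work.MP_51e72e_nt.Cub
  Pool.Agent.Work.MP_51e72e_nt.Cub.Sv Pool.Agent.Work.MP_51e72e_nt.Sys
open Pool.Agent.Work.MP_51e72e_nt.Deg (LevelN adm win es)

/-- standing assumptions -/
structure Hy (G : Polynomial ℤ) (W D K Ω : ℕ) (P : Finset ℕ) : Prop where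
  pri : ∀ p ∈ P, p.Prime ∧ Nat.Coprime p W ∧ omega G p ≤ D ∧ 2 * D + 1 ≤ p
  W0 : 0 < W
  WK : W ≤ K
  lam : ∏ p ∈ P, (1 + hh G p) ≤ K
  dv : ∀ U ⊆ P, pr U ≤ Ω → 2 ^ U.card ≤ K
  rt : ∀ U ⊆ P, pr U ≤ Ω → (Rt G (pr U)).card ≤ K

/-- the primes of `P` dividing the value -/
def TT (G : Polynomial ℤ) (P : Finset ℕ) (t : ℤ) : Finset ℕ :=
  P.filter fun p : ℕ => (p : ℤ) ∣ G.eval t

/-- the sieve measure -/
noncomputable def mu (G : Polynomial ℤ) (W : ℕ) (P Ps : Finset ℕ) (ξ : ℝ) (t : ℤ) : ℝ :=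
  if Nat.Coprime (G.eval t).natAbs W ∧ Disjoint Ps (TT G P t) then
    Psi (hh G) Ps ξ (TT G P t) * Psi (hh G) Ps ξ (TT G P t) else 0

/-- local densities -/
noncomputable def gg (G : Polynomial ℤ) (p : ℕ) : ℝ := (omega G p : ℝ) / p

/-- inverse of the sieve product -/
noncomputable def Gam (G : Polynomial ℤ) (Ps : Finset ℕ) : ℝ := ∏ p ∈ Ps, (1 + hh G p)

variable {G : Polynomial ℤ} {W D K Ω N L : ℕ} {P Ps Q : Finset ℕ} {ξ : ℝ}

lemma Hy.prime (H : Hy G W D K Ω P) : ∀ p ∈ P, p.Prime := fun p hp => (H.pri p hp).1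

lemma Hy.pos (H : Hy G W D K Ω P) : ∀ p ∈ P, (0 : ℝ) < p - omega G p := fun p hp =>
  sub_pos.2 (Nat.cast_lt.2 (by have := H.pri p hp; omega))

lemma Hy.h0 (H : Hy G W D K Ω P) : ∀ p ∈ P, 0 ≤ hh G p := fun p hp =>
  div_nonneg (Nat.cast_nonneg _) (H.pos p hp).le

lemma Hy.hg (H : Hy G W D K Ω P) : ∀ p ∈ P, (1 - gg G p) * hh G p = gg G p := fun p hp => by
  have a1 := (H.pos p hp).ne'
  have a2 : (p : ℝ) ≠ 0 := Nat.cast_ne_zero.2 (H.prime p hp).ne_zero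
  unfold hh gg
  field_simp

lemma Hy.g_le (H : Hy G W D K Ω P) : ∀ p ∈ P, gg G p ≤ hh G p := fun p hp =>
  div_le_div_of_nonneg_left (Nat.cast_nonneg _) (H.pos p hp)
    (sub_le_self _ (Nat.cast_nonneg _))

lemma Hy.one_le (H : Hy G W D K Ω P) (hQ : Q ⊆ P) : 1 ≤ Gam G Q :=
  le_trans (by simp) (prod_le_prod (f := fun _ => (1 : ℝ)) (fun _ _ => zero_le_one)
    fun p hp => le_add_of_nonneg_right (H.h0 p (hQ hp)))

lemma Hy.le_K (H : Hy G W D K Ω P) (hQ : Q ⊆ P) : Gam G Q ≤ K :=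
  prod_le_of_sub H.h0 H.lam hQ

lemma Hy.gam_inv (H : Hy G W D K Ω P) (hQ : Q ⊆ P) :
    Gam G Q * ∏ p ∈ Q, (1 - gg G p) = 1 := by
  rw [Gam, ← prod_mul_distrib]
  exact prod_eq_one fun p hp => by linear_combination H.hg p (hQ hp)

lemma mu_nonneg (t : ℤ) : 0 ≤ mu G W P Ps ξ t := by
  unfold mu
  split_ifs
  exacts [mul_self_nonneg _, le_rfl]

lemma Hy.Xi_le (H : Hy G W D K Ω P) (hPs : Ps ⊆ P) (hξ : 1 < ξ) (t : ℤ) :
    (if Nat.Coprime (G.eval t).natAbs W then 1 else 0) * Xi (hh G) Ps ξ (TT G P t) ≤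
      mu G W P Ps ξ t := by
  have := Sys.Xi_le (fun p hp => H.prime p (hPs hp)) (fun p hp => H.h0 p (hPs hp)) hξ (TT G P t)
  unfold mu
  by_cases a : Nat.Coprime (G.eval t).natAbs W
  · by_cases b : Disjoint Ps (TT G P t)
    · rw [if_pos a, if_pos ⟨a, b⟩, one_mul, Xi_of_disj b]
    · rw [if_neg b] at this
      rwa [if_pos a, if_neg fun c => b c.2, one_mul]
  · rw [if_neg a, if_neg fun c => a c.1, zero_mul]

lemma Hy.mu_le (H : Hy G W D K Ω P) (hPs : Ps ⊆ P) (hξ : 1 < ξ) (t : ℤ) :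
    mu G W P Ps ξ t ≤ Gam G Ps ^ 2 := by
  have := Sys.Xi_le (fun p hp => H.prime p (hPs hp)) (fun p hp => H.h0 p (hPs hp)) hξ (TT G P t)
  unfold mu
  split_ifs with a
  · rwa [if_pos a.2, Xi_of_disj a.2] at this
  · exact sq_nonneg _

lemma Hy.rem (H : Hy G W D K Ω P) (hL : 0 < L) {X : Finset ℕ → ℝ} {C M : ℝ} (hX : Rep P X C M)
    (hM : M ≤ Ω) :
    |AX G W N L P X - ((N : ℝ) + L) * ((adm G W).card / W) * EX (gg G) P X| ≤
      Ω * (C * (K : ℝ) ^ 2) := by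
  have C0 := hX.nonneg
  have hP' : ∀ p ∈ P, p.Prime ∧ Nat.Coprime p W := fun p hp => ⟨H.prime p hp, (H.pri p hp).2.1⟩
  have k : |RM G W N L P X| ≤ Ω * (C * (K : ℝ) ^ 2) := by
    obtain ⟨c, a1, a2, e⟩ := hX
    rw [e, map_sum]
    refine sum_le_of_level H.prime (by positivity) (by positivity) fun T hT h3 => ?_
    rw [map_smul, smul_eq_mul] at h3 ⊢
    have h4 := (a2 T (left_ne_zero_of_mul h3)).trans hM
    have t2 := abs_RM_le (f := G) (N := N) hP' H.W0 hL hT (empty_subset _) (disjoint_empty_right _)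
    rw [union_empty, prod_empty, mul_one] at t2
    rw [abs_mul]
    refine ⟨h4, mul_le_mul (a1 T) (t2.trans ?_) (abs_nonneg _) C0⟩
    rw [sq]
    gcongr
    · exact H.rt T hT (Nat.cast_le.1 h4)
    · exact H.WK
  rw [RM, LinearMap.sub_apply, LinearMap.smul_apply, smul_eq_mul] at k
  exact k

lemma Hy.rep_sq (H : Hy G W D K Ω P) (hPs : Ps ⊆ P) (hξ : 1 < ξ) (h1 : ξ * ξ ≤ Ω) :
    Rep Ps (Psi (hh G) Ps ξ * Psi (hh G) Ps ξ) ((K : ℝ) ^ 4) (ξ * ξ) := by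
  have hp := fun p hp => H.prime p (hPs hp)
  have r := rep_Psi hp (fun p hp => H.h0 p (hPs hp)) hξ
  have a := H.le_K hPs
  have b := H.one_le hPs
  refine (Rep.mul hp r r (D := K) fun U hU h =>
    H.dv U (hU.trans hPs) (Nat.cast_le.1 (h.trans h1))).mono (subset_refl _) ?_ le_rfl
  unfold Gam at a b
  push_cast
  calc _ ≤ (K : ℝ) * K * K ^ 2 := by gcongr
    _ = _ := by ring

theorem Hy.up (H : Hy G W D K Ω P) (hL : 0 < L) (hPs : Ps ⊆ P) (hQ : Q ⊆ P) (hd : Disjoint Ps Q)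
    (hξ : 1 < ξ) {Z : Finset ℕ → ℝ} {C M : ℝ} (hZ : Rep Q Z C M) (Z0 : ∀ T, 0 ≤ Z T)
    (E0 : 0 ≤ EX (gg G) P Z) (M1 : 1 ≤ M) (h1 : ξ * ξ * M ≤ Ω) :
    ∑ t ∈ Icc 1 N, mu G W P Ps ξ t * Z (TT G P t) ≤
      ((N : ℝ) + L) * ((adm G W).card / W) * (Gam G Ps * EX (gg G) P Z) +
        Ω * (C * (K : ℝ) ^ 8) := by
  have r1 := H.rep_sq hPs hξ ((le_mul_of_one_le_right (by positivity) M1).trans h1)
  have r2 := Rep.mul H.prime (r1.mono hPs le_rfl le_rfl) (hZ.mono hQ le_rfl le_rfl) (D := K)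
    fun U hU h => H.dv U hU (Nat.cast_le.1 (h.trans h1))
  have k := (abs_le.1 (H.rem (N := N) hL r2 h1)).2
  rw [EX_mul r1 hZ hPs hQ hd] at k
  have k1 := sm_up (N := N) hL (fun t => (if Nat.Coprime (G.eval t).natAbs W then 1 else 0) *
      (Psi (hh G) Ps ξ * Psi (hh G) Ps ξ * Z) (TT G P t)) fun t =>
    mul_nonneg (by split_ifs <;> norm_num) (mul_nonneg (mul_self_nonneg _) (Z0 _))
  have k2 : ∑ t ∈ Icc 1 N, mu G W P Ps ξ t * Z (TT G P t) ≤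
      AX G W N L P (Psi (hh G) Ps ξ * Psi (hh G) Ps ξ * Z) := by
    refine le_trans (sum_le_sum fun t _ => ?_) k1
    unfold mu
    split_ifs with a b b
    · rw [one_mul]; rfl
    · exact absurd a.1 b
    · rw [zero_mul, one_mul]
      exact mul_nonneg (mul_self_nonneg _) (Z0 _)
    · simp
  have k3 := mul_le_mul_of_nonneg_left (mul_le_mul_of_nonneg_right
    (EX_psi_le (g := gg G) hPs H.h0 H.hg hξ) E0)
    (show 0 ≤ ((N : ℝ) + L) * ((adm G W).card / W) by positivity)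
  have e : (K : ℝ) ^ 4 * C * (K ^ 2 : ℕ) * (K : ℝ) ^ 2 = C * (K : ℝ) ^ 8 := by push_cast; ring
  rw [e] at k
  unfold Gam
  linarith only [k, k2, k3]

lemma Hy.rep_Xi (H : Hy G W D K Ω P) (hPs : Ps ⊆ P) (hξ : 1 < ξ) {y : ℝ} (y1 : 1 ≤ y)
    (hy : ∀ p ∈ Ps, (p : ℝ) ≤ y) (h1 : ξ * ξ * y ≤ Ω) :
    Rep Ps (Xi (hh G) Ps ξ) (2 * (K : ℝ) ^ 6) (ξ * ξ * y) := by
  have a := H.le_K hPs
  have b := H.one_le hPs
  refine (Sys.rep_Xi (fun p hp => H.prime p (hPs hp)) (fun p hp => H.h0 p (hPs hp)) hξ y1 hy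
    (D := K) fun U hU h => H.dv U (hU.trans hPs) (Nat.cast_le.1 (h.trans h1))).mono
    (subset_refl _) ?_ le_rfl
  unfold Gam at a b
  calc _ ≤ 2 * (K : ℝ) ^ 2 * K ^ 4 := by gcongr
    _ = _ := by ring

theorem Hy.lo (H : Hy G W D K Ω P) (hL : 0 < L) (hPs : Ps ⊆ P) (hξ : 1 < ξ) {y η : ℝ} (y1 : 1 ≤ y)
    (hy : ∀ p ∈ Ps, (p : ℝ) ≤ y) (h1 : ξ * ξ * y ≤ Ω)
    (h2 : Gam G Ps * (1 - η) ≤ EX (gg G) P (Xi (hh G) Ps ξ)) :
    ((N : ℝ) + L) * ((adm G W).card / W) * (Gam G Ps * (1 - η)) ≤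
      ∑ t ∈ Icc 1 N, mu G W P Ps ξ t + (Ω * (2 * (K : ℝ) ^ 8) + L * (K : ℝ) ^ 2) := by
  have k := (abs_le.1 (H.rem (N := N) hL ((H.rep_Xi hPs hξ y1 hy h1).mono hPs le_rfl le_rfl) h1)).1
  have a := H.le_K hPs
  have b := H.one_le hPs
  have k1 : AX G W N L P (Xi (hh G) Ps ξ) ≤ _ :=
    sm_lo (N := N) hL (fun t => (if Nat.Coprime (G.eval t).natAbs W then 1 else 0) *
      Xi (hh G) Ps ξ (TT G P t)) (fun t => mu G W P Ps ξ t) (Bd := (K : ℝ) ^ 2)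
      (fun t _ => H.Xi_le hPs hξ t) fun t _ =>
        (H.Xi_le hPs hξ t).trans ((H.mu_le hPs hξ t).trans (by gcongr))
  have k3 := mul_le_mul_of_nonneg_left h2
    (show 0 ≤ ((N : ℝ) + L) * ((adm G W).card / W) by positivity)
  have e : 2 * (K : ℝ) ^ 6 * (K : ℝ) ^ 2 = 2 * (K : ℝ) ^ 8 := by ring
  rw [e] at k
  linarith only [k, k1, k3]

lemma es_one (g : ℕ → ℝ) (A : Finset ℕ) : es g A 1 = ∑ p ∈ A, g p := by
  rw [es, powersetCard_one, sum_map]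
  simp

lemma cnt_one (A T : Finset ℕ) : Sys.cnt A 1 T = ((A ∩ T).card : ℝ) := by
  rw [Sys.cnt_eq, Nat.choose_one_right]

theorem Hy.lo2 (H : Hy G W D K Ω P) (hL : 0 < L) (hPs : Ps ⊆ P) (hξ : 1 < ξ) {y γ E : ℝ}
    (y1 : 1 ≤ y) (hy : ∀ p ∈ Ps, (p : ℝ) ≤ y) (h1 : ξ * ξ * y ≤ Ω)
    (h2 : Gam G Ps / 2 ≤ EX (gg G) P (Xi (hh G) Ps ξ)) {f : Polynomial ℤ}
    {n M0 M1 Dm Mx M lo0 hi0 : ℕ} {Y0 Y1 lo hi : ℕ → ℕ} {A0 : Finset ℕ} {A : ℕ → Finset ℕ}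
    (hn : 1 ≤ n) (s0 : A0 ⊆ P) (s1 : ∀ k < n, A k ⊆ P) (d0 : ∀ k < n, Disjoint A0 (A k))
    (d1 : ∀ k < n, ∀ k' < n, k ≠ k' → Disjoint (A k) (A k')) (d2 : Disjoint A0 Ps)
    (d3 : ∀ k < n, Disjoint (A k) Ps) (hMx : ξ * ξ * y ≤ Mx)
    (b0 : ∀ p ∈ A0, lo0 ≤ p ∧ p ≤ hi0) (b1 : ∀ k < n, ∀ p ∈ A k, lo k ≤ p ∧ p ≤ hi k)
    (c0 : M0 ≤ lo0) (c1 : hi0 ≤ M1) (c2 : ∀ k < n, Y0 k ≤ lo k) (c3 : ∀ k < n, hi k * Mx ≤ Y1 k)
    (c4 : M1 ≤ Ω) (c5 : ∀ k < n, Y1 k ≤ Ω) (hDm : K ≤ Dm)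
    (hf : ∀ p ∈ A0, ∀ t : ℤ, (p : ℤ) ∣ G.eval t ↔ (p : ℤ) ∣ f.eval t)
    (hLev : LevelN f n W N L M0 M1 Dm Y0 Y1 E) (γ0 : 0 ≤ γ)
    (g0 : γ ≤ ∑ p ∈ A0, gg G p) (g1 : ∀ k < n, γ ≤ ∑ p ∈ A k, gg G p)
    (m0 : ∀ t : ℤ, t.natAbs ≤ N + L → (A0 ∩ TT G P t).card ≤ M ∧
      ∀ k < n, (A k ∩ TT G P t).card ≤ M) (q : ℕ → Prop) [DecidablePred q]
    (hq : ∀ t ∈ Icc 1 N, (A0 ∩ TT G P t).Nonempty → (∀ k < n, (A k ∩ TT G P t).Nonempty) → q t) :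
    ((N : ℝ) + L) * ((adm G W).card / W) * (Gam G Ps / 2 * γ ^ (n + 1)) ≤
      (M : ℝ) ^ (n + 1) * ∑ t ∈ Icc 1 N, (mu G W P Ps ξ t * if q t then 1 else 0) +
        (2 * (K : ℝ) ^ 7 * E + L * ((M : ℝ) ^ (n + 1) * (K : ℝ) ^ 2)) := by
  have hP := H.prime
  have hP' : ∀ p ∈ P, p.Prime ∧ Nat.Coprime p W := fun p hp => ⟨hP p hp, (H.pri p hp).2.1⟩
  have K0 : (0 : ℝ) < K := Nat.cast_pos.2 (H.W0.trans_le H.WK)
  have M1' : (1 : ℝ) ≤ Mx := le_trans (one_le_mul_of_one_le_of_one_le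
    (one_le_mul_of_one_le_of_one_le hξ.le hξ.le) y1) hMx
  obtain ⟨Cx, hCx⟩ : ∃ Cx : ℝ, Cx = 2 * (K : ℝ) ^ 6 := ⟨_, rfl⟩
  have Cx0 : 0 < Cx := by rw [hCx]; positivity
  have x1 : Rep Ps (Xi (hh G) Ps ξ) Cx Mx :=
    (H.rep_Xi hPs hξ y1 hy h1).mono (subset_refl _) hCx.ge hMx
  have xl := fun t => H.Xi_le hPs hξ t
  generalize Xi (hh G) Ps ξ = X at *
  obtain ⟨QQ, hQQ⟩ : ∃ QQ : ℕ → Finset ℕ, QQ = fun k => if k = 0 then Ps else ∅ := ⟨_, rfl⟩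
  obtain ⟨XX, hXX⟩ : ∃ XX : ℕ → Finset ℕ → ℝ, XX = fun k => if k = 0 then Cx⁻¹ • X else 1 :=
    ⟨_, rfl⟩
  have q1 : ∀ k, QQ k ⊆ Ps := fun k => by
    simp only [hQQ]
    split_ifs
    exacts [subset_refl _, empty_subset _]
  have q2 : ∀ k, Rep (QQ k) (XX k) 1 Mx := fun k => by
    simp only [hQQ, hXX]
    split_ifs
    exacts [rep_smul Cx0 x1, rep_one M1']
  have q3 := fun k (hk : k < n) => rep2_mul (j := 1) (Y1 := Y1 k) (gg G) hP (s1 k hk) ((q1 k).trans hPs)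
    ((d3 k hk).mono_right (q1 k)) (q2 k) (b1 k hk) ((c2 k hk).trans_eq (pow_one _).symm)
    (by rw [pow_one]; exact c3 k hk)
  have q4 := rep2_mul (j := 1) (Mx := 1) (Y1 := M1) (gg f) hP s0 (empty_subset _) (disjoint_empty_right _)
    (rep_one Nat.cast_one.ge) b0 (c0.trans_eq (pow_one _).symm)
    (by rw [pow_one, mul_one]; exact c1)
  have e1 : ∀ g' : ℕ → ℝ, EX g' P 1 = 1 := fun g' => by
    have := EX_ind g' (empty_subset P)
    rwa [prod_empty, show ind ∅ = 1 by funext S; simp [ind]] at this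
  rw [union_empty, mul_one, e1, mul_one] at q4
  have lev := AY_multi (f := G) (Q := fun k => A k ∪ QQ k) hP' H.W0 s0
    (fun k hk => union_subset (s1 k hk) ((q1 k).trans hPs))
    (fun k hk => disjoint_union_right.2 ⟨d0 k hk, d2.mono_right (q1 k)⟩)
    (fun k hk k' hk' h => ?_) q4.1 (fun k hk => (q3 k hk).1) (fun T hT h => ?_)
    (fun k hk T hT h => (H.rt T (hT.trans (union_subset (s1 k hk) ((q1 k).trans hPs)))
      (h.trans (c5 k hk))).trans hDm) hLev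
  rotate_left
  · refine disjoint_union_left.2 ⟨disjoint_union_right.2 ⟨d1 k hk k' hk' h,
      (d3 _ hk).mono_right (q1 k')⟩, disjoint_union_right.2
      ⟨((d3 _ hk').mono_right (q1 k)).symm, ?_⟩⟩
    simp only [hQQ]
    split_ifs <;> first | omega | simp
  · refine le_trans (le_of_eq ?_) ((H.rt T (hT.trans s0) (h.trans c4)).trans hDm)
    have hT' := fun p hp => hP p (s0 (hT hp))
    rw [Rt, Rt, pr, card_roots_prod f T hT', card_roots_prod G T hT']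
    exact prod_congr rfl fun p hp => (omega_congr (hf p (hT hp))).symm
  have e2 : ∀ a : ℝ, ∏ k : Fin n, (if (k : ℕ) = 0 then a else 1) = a := fun a => by
    obtain ⟨m, rfl⟩ := Nat.exists_eq_add_of_le' hn
    simp
  have e3 : ∏ k : Fin n, EX (gg G) P (Sys.cnt (A k) 1 * XX k) =
      (∏ k : Fin n, es (gg G) (A k) 1) * (Cx⁻¹ * EX (gg G) P X) := by
    rw [prod_congr (M := ℝ) rfl fun (k : Fin n) _ => (q3 k k.2).2, prod_mul_distrib,
      ← e2 (Cx⁻¹ * _)]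
    refine congrArg _ (prod_congr rfl fun k _ => ?_)
    simp only [hXX]
    split_ifs
    exacts [map_smul _ _ _, e1 _]
  have e4 : ∀ T, ∏ k : Fin n, (Sys.cnt (A k) 1 * XX k) T =
      (∏ k : Fin n, Sys.cnt (A k) 1 T) * (Cx⁻¹ * X T) := fun T => by
    simp only [Pi.mul_apply]
    rw [prod_mul_distrib, ← e2 (Cx⁻¹ * _)]
    refine congrArg _ (prod_congr rfl fun k _ => ?_)
    simp only [hXX]
    split_ifs <;> rfl
  have e5 : es (gg f) A0 1 = ∑ p ∈ A0, gg G p := by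
    rw [es_one]
    exact sum_congr rfl fun p hp => by rw [gg, gg, omega_congr (hf p hp)]
  change |_ - _ * (EX (gg f) P _ * ∏ k : Fin n, EX (gg G) P _)| ≤ _ at lev
  rw [q4.2, e3, e5] at lev
  have a := H.le_K hPs
  have b := H.one_le hPs
  have key : ∀ t : ℤ, t.natAbs ≤ N + L → ∀ r : ℝ, 0 ≤ r →
      ((A0 ∩ TT G P t).Nonempty → (∀ k < n, (A k ∩ TT G P t).Nonempty) → r = 1) →
      (if Nat.Coprime (G.eval t).natAbs W then 1 else 0) *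
        (Sys.cnt A0 1 (P.filter fun p : ℕ => (p : ℤ) ∣ f.eval t) *
          ∏ k : Fin n, (Sys.cnt (A k) 1 * XX k) (TT G P t)) ≤
        Cx⁻¹ * ((M : ℝ) ^ (n + 1) * (mu G W P Ps ξ t * r)) := by
    intro t ht r r0 hr
    have u1 : A0 ∩ P.filter (fun p : ℕ => (p : ℤ) ∣ f.eval t) = A0 ∩ TT G P t := by
      ext p
      simp only [TT, mem_inter, mem_filter]
      exact and_congr_right fun hp => and_congr_right fun _ => (hf p hp t).symm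
    rw [e4]
    simp only [cnt_one, u1]
    have u2 : (0 : ℝ) ≤ ∏ k : Fin n, ((A k ∩ TT G P t).card : ℝ) :=
      prod_nonneg fun _ _ => Nat.cast_nonneg _
    have u3 : ((A0 ∩ TT G P t).card : ℝ) * ∏ k : Fin n, ((A k ∩ TT G P t).card : ℝ) ≤
        (M : ℝ) ^ (n + 1) := by
      rw [pow_succ']
      refine mul_le_mul (Nat.cast_le.2 (m0 t ht).1) ?_ u2 (Nat.cast_nonneg _)
      refine le_trans (prod_le_prod (fun _ _ => Nat.cast_nonneg _) fun (k : Fin n) _ =>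
        Nat.cast_le.2 ((m0 t ht).2 k k.2)) (by simp)
    have u4 := mu_nonneg (G := G) (W := W) (P := P) (Ps := Ps) (ξ := ξ) t
    by_cases c : ((A0 ∩ TT G P t).card : ℝ) * ∏ k : Fin n, ((A k ∩ TT G P t).card : ℝ) = 0
    · rw [← mul_assoc (_ : ℝ) (∏ k : Fin n, _), c, zero_mul, mul_zero]
      positivity
    rw [hr (card_ne_zero.1 (Nat.cast_ne_zero.1 (left_ne_zero_of_mul c))) fun k hk =>
      card_ne_zero.1 (Nat.cast_ne_zero.1
        (prod_ne_zero_iff.1 (right_ne_zero_of_mul c) ⟨k, hk⟩ (mem_univ _))), mul_one]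
    calc _ = Cx⁻¹ * ((((A0 ∩ TT G P t).card : ℝ) * ∏ k : Fin n, ((A k ∩ TT G P t).card : ℝ)) *
          ((if Nat.Coprime (G.eval t).natAbs W then 1 else 0) * X (TT G P t))) := by ring
      _ ≤ _ := mul_le_mul_of_nonneg_left ((mul_le_mul_of_nonneg_left (xl t)
          (mul_nonneg (Nat.cast_nonneg _) u2)).trans (mul_le_mul_of_nonneg_right u3 u4))
          (by positivity)
  have k1 : AY f G W N L P (Sys.cnt A0 1) (fun T => ∏ k : Fin n, (Sys.cnt (A k) 1 * XX k) T) ≤ _ :=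
    sm_lo (N := N) hL (fun t => (if Nat.Coprime (G.eval t).natAbs W then 1 else 0) *
        (Sys.cnt A0 1 (P.filter fun p : ℕ => (p : ℤ) ∣ f.eval t) *
          ∏ k : Fin n, (Sys.cnt (A k) 1 * XX k) (TT G P t)))
      (fun t => Cx⁻¹ * ((M : ℝ) ^ (n + 1) * (mu G W P Ps ξ t * if q t then 1 else 0)))
      (Bd := Cx⁻¹ * ((M : ℝ) ^ (n + 1) * (K : ℝ) ^ 2))
      (fun t ht => key t (by have := mem_Icc.1 ht; omega) _ (by split_ifs <;> norm_num)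
        fun v1 v2 => if_pos (hq t ht v1 v2))
      fun t ht => (key t ht 1 zero_le_one fun _ _ => rfl).trans (by
        rw [mul_one]
        gcongr
        exact (H.mu_le hPs hξ t).trans (by gcongr))
  rw [← mul_sum, ← mul_sum] at k1
  have k2 : γ ^ (n + 1) ≤ (∑ p ∈ A0, gg G p) * ∏ k : Fin n, es (gg G) (A k) 1 := by
    rw [pow_succ']
    refine mul_le_mul g0 (le_trans (by simp) (prod_le_prod (f := fun _ => γ) (fun _ _ => γ0)
      fun (k : Fin n) _ => (g1 k k.2).trans_eq (es_one _ _).symm)) (by positivity) (γ0.trans g0)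
  have k3 : Gam G Ps / 2 * γ ^ (n + 1) ≤ EX (gg G) P X *
      ((∑ p ∈ A0, gg G p) * ∏ k : Fin n, es (gg G) (A k) 1) :=
    mul_le_mul h2 k2 (by positivity) (le_trans (by positivity) h2)
  have k4 := mul_le_mul_of_nonneg_left k3
    (show 0 ≤ ((N : ℝ) + L) * ((adm G W).card / W) by positivity)
  have E0 : 0 ≤ E := by
    have := (abs_nonneg _).trans lev
    exact nonneg_of_mul_nonneg_right this (Nat.cast_pos.2 H.W0) |> fun h => h
  have k5 := mul_le_mul_of_nonneg_left ((abs_le.1 lev).1) Cx0.le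
  have k6 := mul_le_mul_of_nonneg_left k1 Cx0.le
  have k7 : Cx * (W * E) ≤ 2 * (K : ℝ) ^ 7 * E := by
    rw [hCx]
    calc _ ≤ 2 * (K : ℝ) ^ 6 * (K * E) := by gcongr; exact H.WK
      _ = _ := by ring
  generalize AY _ _ _ _ _ _ _ _ = ay at *
  generalize ((N : ℝ) + L) * ((adm G W).card / W) = ρ at *
  generalize (∑ p ∈ A0, gg G p) = s at *
  generalize (∏ k : Fin n, es (gg G) (A k) 1) = s' at *
  generalize EX (gg G) P X = x at *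
  generalize ∑ t ∈ Icc 1 N, (mu G W P Ps ξ t * if q t then 1 else 0) = m at *
  have f1 : Cx * (ay - ρ * (s * (s' * (Cx⁻¹ * x)))) = Cx * ay - ρ * (x * (s * s')) := by
    field_simp
  have f2 : Cx * (Cx⁻¹ * ((M : ℝ) ^ (n + 1) * m) + L * (Cx⁻¹ * ((M : ℝ) ^ (n + 1) * (K : ℝ) ^ 2))) =
      (M : ℝ) ^ (n + 1) * m + L * ((M : ℝ) ^ (n + 1) * (K : ℝ) ^ 2) := by
    field_simp
  rw [f1] at k5
  rw [f2] at k6
  linarith only [k4, k5, k6, k7]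

end Pool.Agent.Work.MP_51e72e_nt.SL
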