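import Pool.Agent.Work.MP_51e72e_nt.SL.B
import Pool.Agent.Work.MP_51e72e_nt.LPFinal

/-!
Pointwise inequalities and the remaining sums of the weighted Chebyshev argument.
-/

set_option autoImplicit false

namespace Pool.Agent.Work.MP_51e72e_nt.SL

open Finset Filter Polynomial Pool.Agent.Lib.ANT Pool.Agent.Work.MP_51e72e_nt.Cub
  Pool.Agent.Work.MP_51e72e_nt.Cub.Sv Pool.Agent.Work.MP_51e72e_nt.Sys
  Pool.Agent.Work.MP_51e72e_nt.LP
open Pool.Agent.Work.MP_51e72e_nt.Deg (LevelN adm win es mem_win win_disj)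

lemma tail (k : ℕ) : ∃ C : ℝ, 0 ≤ C ∧ ∀ S : Finset ℕ, (∀ p ∈ S, 2 ≤ p) →
    ∑ p ∈ S, Real.log p ^ (k + 1) / (p * (p - 1)) ≤ C := by
  have hs : Summable fun n : ℕ => 1 / (n : ℝ) ^ (3 / 2 : ℝ) :=
    Real.summable_one_div_nat_rpow.2 (by norm_num)
  obtain ⟨a, ha⟩ : ∃ a : ℝ, a = 1 / (2 * ((k + 1 : ℕ) : ℝ)) := ⟨_, rfl⟩
  have a0 : 0 < a := by rw [ha]; positivity
  refine ⟨2 / a ^ (k + 1) * ∑' n : ℕ, 1 / (n : ℝ) ^ (3 / 2 : ℝ),
    mul_nonneg (by positivity) (tsum_nonneg fun _ => by positivity), fun S hS => ?_⟩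
  refine le_trans (sum_le_sum fun p hp => ?_) ((mul_sum S _ _).ge.trans
    (mul_le_mul_of_nonneg_left (hs.sum_le_tsum S fun _ _ => by positivity) (by positivity)))
  have p2 : (2 : ℝ) ≤ p := by exact_mod_cast hS p hp
  have p0 : (0 : ℝ) < p := by linarith only [p2]
  have h1 : Real.log p ^ (k + 1) ≤ (p : ℝ) ^ (1 / 2 : ℝ) / a ^ (k + 1) := by
    refine (pow_le_pow_left₀ (Real.log_natCast_nonneg p) (Real.log_le_rpow_div p0.le a0) _).trans
      (le_of_eq ?_)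
    rw [div_pow, ← Real.rpow_natCast, ← Real.rpow_mul p0.le]
    congr 2
    rw [ha]
    field_simp
  have h2 : (p : ℝ) ^ (1 / 2 : ℝ) * (p : ℝ) ^ (3 / 2 : ℝ) = p * p := by
    rw [← Real.rpow_add p0]
    norm_num [sq]
  have h3 : (0 : ℝ) < (p : ℝ) ^ (3 / 2 : ℝ) := by positivity
  have h4 : (0 : ℝ) < p - 1 := by linarith only [p2]
  refine (div_le_div_of_nonneg_right h1 (by positivity)).trans ?_
  rw [div_div, mul_one_div, div_div, div_le_div_iff₀ (by positivity) (by positivity)]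
  calc _ = a ^ (k + 1) * (p * p) := by rw [← h2]; ring
    _ ≤ a ^ (k + 1) * (2 * (p * (p - 1))) := by
        refine mul_le_mul_of_nonneg_left ?_ (by positivity)
        nlinarith only [p2]
    _ = _ := by ring

lemma card_big {S : Finset ℕ} {m : ℤ} {B M : ℕ} (hB : 2 ≤ B) (h0 : m ≠ 0) (h1 : m.natAbs ≤ B ^ M)
    (hS : ∀ p ∈ S, p.Prime ∧ B ≤ p ∧ (p : ℤ) ∣ m) : S.card ≤ M := by
  refine (Nat.pow_le_pow_iff_right hB).mp (le_trans ?_ h1)
  refine (pow_card_le_prod _ (fun p => p) _ fun p hp => (hS p hp).2.1).trans ?_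
  refine Nat.le_of_dvd (Int.natAbs_pos.mpr h0) ((prod_dvd_prod_of_subset _ _ _ fun p hp => ?_).trans
    (Nat.prod_primeFactors_dvd _))
  exact Nat.mem_primeFactors.2 ⟨(hS p hp).1, Int.natCast_dvd.1 (hS p hp).2.2,
    Int.natAbs_ne_zero.2 h0⟩

lemma sum_log_le_lam1 {f : ℤ[X]} {t : ℤ} {Y : ℕ} {S : Finset ℕ} (h0 : f.eval t ≠ 0)
    (hS : ∀ p ∈ S, p.Prime ∧ p ≤ Y ∧ (p : ℤ) ∣ f.eval t) : ∑ p ∈ S, Real.log p ≤ lam1 f Y t := by
  refine (sum_le_sum_of_subset_of_nonneg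
    (t := (f.eval t).natAbs.primeFactors.filter fun p => p ≤ Y) (fun p hp => ?_)
    fun p _ _ => Real.log_natCast_nonneg p).trans (sum_le_sum fun p hp => ?_)
  · exact mem_filter.2 ⟨Nat.mem_primeFactors.2 ⟨(hS p hp).1, Int.natCast_dvd.1 (hS p hp).2.2,
      Int.natAbs_ne_zero.2 h0⟩, (hS p hp).2.1⟩
  · refine le_mul_of_one_le_left (Real.log_natCast_nonneg p) ?_
    have := Nat.mem_primeFactors.mp (mem_filter.mp hp).1
    exact_mod_cast this.1.factorization_pos_of_dvd this.2.2 this.2.1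

lemma le_lam1' {f : ℤ[X]} {t : ℤ} {Y B : ℕ} {I P T : Finset ℕ} (h0 : f.eval t ≠ 0) (hB : 1 ≤ B)
    (h1 : ∀ a ∈ I, (win P (B ^ ·) a ∩ T).Nonempty)
    (h2 : ∀ a ∈ I, ∀ p ∈ win P (B ^ ·) a ∩ T, p.Prime ∧ p ≤ Y ∧ (p : ℤ) ∣ f.eval t) :
    ((∑ a ∈ I, a : ℕ) : ℝ) * Real.log B ≤ lam1 f Y t := by
  refine le_trans ?_ (sum_log_le_lam1 (S := I.biUnion fun a => win P (B ^ ·) a ∩ T) h0
    fun p hp => ?_)
  · rw [sum_biUnion fun a _ a' _ h => (win_disj (fun _ _ => Nat.pow_le_pow_right hB) h).mono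
      inter_subset_left inter_subset_left, Nat.cast_sum, sum_mul]
    refine sum_le_sum fun a ha => ?_
    obtain ⟨p, hp⟩ := h1 a ha
    refine le_trans ?_ (single_le_sum (f := fun p : ℕ => Real.log p)
      (fun p _ => Real.log_natCast_nonneg p) hp)
    rw [← Real.log_pow]
    exact Real.log_le_log (by positivity)
      (by exact_mod_cast (mem_win.1 (mem_inter.1 hp).1).2.1.le)
  · obtain ⟨a, ha, hp⟩ := mem_biUnion.1 hp
    exact h2 a ha p hp

lemma point {f : ℤ[X]} {t : ℤ} {d j b : ℕ} {T x a : ℝ} (m0 : f.eval t ≠ 0) (hb : 2 ≤ b)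
    (hj : 2 * d + 2 ≤ j) (h1 : (f.eval t).natAbs ≤ b ^ (d * (j + 2) + 1))
    (hT : ∀ p ∈ (f.eval t).natAbs.primeFactors, Real.log p ≤ T) (T0 : 0 ≤ T) (x0 : 0 ≤ x)
    (hx : lam1 f (b ^ j) t ≤ (2 * d + 1) * Real.log b → x = 1)
    (ha : a = 0 ∨ a = 1 ∧ (j + 2 * d + 2) * Real.log b ≤ lam1 f (b ^ j) t) :
    Real.log ((f.eval t).natAbs : ℝ) ≤ lam1 f (b ^ j) t + T * (d - 1 + x - a) := by
  have hs := log_split_C f (b ^ j) t
  have l0 := lam1_nonneg_C f (b ^ j) t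
  have hk := cnt_le_log_C (f.eval t).natAbs (Nat.one_le_pow j b (by omega))
  have hb' := log_le_cnt_C _ (b ^ j) hT
  have L0 : 0 < Real.log b := Real.log_pos (by exact_mod_cast hb)
  have hu : Real.log ((f.eval t).natAbs : ℝ) ≤ (d * (j + 2) + 1 : ℕ) * Real.log b := by
    rw [← Real.log_pow]
    exact Real.log_le_log (by exact_mod_cast Int.natAbs_pos.2 m0) (by exact_mod_cast h1)
  rw [Nat.cast_pow, Real.log_pow] at hk
  push_cast at hu
  generalize bigCntC _ _ = k at *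
  generalize lam1 _ _ _ = l at *
  generalize Real.log b = β at *
  have j0 : 2 * (d : ℝ) + 2 ≤ j := by exact_mod_cast hj
  have d0 : (0 : ℝ) ≤ d := Nat.cast_nonneg _
  have jβ : 0 ≤ (j : ℝ) * β := by positivity
  have k0 : (k : ℝ) * (j * β) + l ≤ (d * (j + 2) + 1) * β := by linarith only [hs, hk, hu]
  have k1 : (k : ℝ) ≤ d - 1 + x - a := by
    rcases ha with rfl | ⟨rfl, ha⟩
    · rcases lt_trichotomy k d with h | h | h
      · have : (k : ℝ) + 1 ≤ d := by exact_mod_cast h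
        linarith only [this, x0]
      · subst h
        rw [hx (by linarith only [k0])]
        linarith only []
      · have : (d : ℝ) + 1 ≤ k := by exact_mod_cast h
        have := mul_le_mul_of_nonneg_right this jβ
        have := mul_le_mul_of_nonneg_right j0 L0.le
        exfalso
        linarith
    · by_cases h : k + 2 ≤ d
      · have : (k : ℝ) + 2 ≤ d := by exact_mod_cast h
        linarith only [this, x0]
      · have : (d : ℝ) ≤ k + 1 := by exact_mod_cast (by omega : d ≤ k + 1)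
        have := mul_le_mul_of_nonneg_right this jβ
        exfalso
        linarith
  have := mul_le_mul_of_nonneg_right k1 T0
  linarith only [hs, hb', this]

/-- the contribution of prime powers and of small unsifted primes -/
noncomputable def Rs (f : ℤ[X]) (z w Y Bd : ℕ) (t : ℤ) : ℝ :=
  ∑ p ∈ Y.primesLE with z < p, Real.log p *
    ∑ e ∈ Icc 1 (Nat.log p Bd) with (2 ≤ e ∨ p ≤ w), if (p : ℤ) ^ e ∣ f.eval t then (1 : ℝ) else 0

lemma Rs_nonneg (f : ℤ[X]) (z w Y Bd : ℕ) (t : ℤ) : 0 ≤ Rs f z w Y Bd t :=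
  sum_nonneg fun p _ => mul_nonneg (Real.log_natCast_nonneg p)
    (sum_nonneg fun _ _ => by split_ifs <;> norm_num)

lemma lam1_split {f : ℤ[X]} {t : ℤ} {z w Y Bd : ℕ} {Q T : Finset ℕ} (h0 : f.eval t ≠ 0)
    (hB : (f.eval t).natAbs ≤ Bd) (hz : ∀ p : ℕ, p.Prime → p ≤ z → ¬ (p : ℤ) ∣ f.eval t)
    (hQ : ∀ p : ℕ, p.Prime → z < p → w < p → p ≤ Y → (p : ℤ) ∣ f.eval t → p ∈ Q ∩ T) :
    lam1 f Y t ≤ Lg Q T + Rs f z w Y Bd t := by
  refine (lam1_le_sm h0 hB Y).trans ?_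
  rw [← sum_filter_add_sum_filter_not _ (fun p => z < p),
    sum_eq_zero (s := filter (fun p => ¬ z < p) _), add_zero]
  · have e : Lg Q T = ∑ p ∈ Q ∩ T, Real.log p := by
      rw [Lg_apply]
      simp
    have e2 : ∑ p ∈ Y.primesLE with z < p, (if p ∈ Q ∩ T then Real.log p else 0) ≤
        ∑ p ∈ Q ∩ T, Real.log p := by
      rw [sum_ite_mem]
      exact sum_le_sum_of_subset_of_nonneg inter_subset_right
        fun p _ _ => Real.log_natCast_nonneg p
    rw [e]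
    refine le_trans ?_ (add_le_add e2 le_rfl)
    rw [Rs, ← sum_add_distrib]
    refine sum_le_sum fun p hp => ?_
    obtain ⟨a1, a2⟩ := mem_filter.1 hp
    obtain ⟨a3, a4⟩ := Nat.mem_primesLE.1 a1
    rw [← sum_filter_add_sum_filter_not _ (fun e => 2 ≤ e ∨ p ≤ w), mul_add, add_comm]
    refine add_le_add ?_ le_rfl
    have hs : (Icc 1 (Nat.log p Bd)).filter (fun e => ¬ (2 ≤ e ∨ p ≤ w)) ⊆ {1} := fun e he => by
      have := mem_filter.1 he
      have := mem_Icc.1 this.1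
      rw [mem_singleton]
      omega
    split_ifs with c
    · refine mul_le_of_le_one_right (Real.log_natCast_nonneg p) ?_
      refine (sum_le_sum_of_subset_of_nonneg hs fun _ _ _ => by split_ifs <;> norm_num).trans ?_
      rw [sum_singleton]
      split_ifs <;> norm_num
    · rw [sum_eq_zero, mul_zero]
      intro e he
      have b1 := (mem_filter.1 he).2
      obtain rfl := mem_singleton.1 (hs he)
      exact if_neg fun k => c (hQ p a4 a2 (by omega) a3 (by simpa using k))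
  · intro p hp
    obtain ⟨a1, a2⟩ := mem_filter.1 hp
    rw [sum_eq_zero, mul_zero]
    intro e he
    have := (mem_Icc.1 he).1
    exact if_neg fun k => hz p (Nat.mem_primesLE.1 a1).2 (by omega)
      ((dvd_pow_self _ (by omega)).trans k)

lemma sum_Rs {f : ℤ[X]} {z w Y N d k M0 : ℕ} {Γ A C : ℝ} (N0 : 0 < N)
    (hM : ∀ p : ℕ, p.Prime → ∀ e : ℕ,
      (((Icc 1 N).filter fun n : ℕ => (p : ℤ) ^ e ∣ f.eval (n : ℤ)).card : ℝ)
        ≤ M0 * ((N : ℝ) / (p : ℝ) ^ e + 1)) (Γ0 : 0 ≤ Γ) (A0 : 0 ≤ A)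
    (hΓ : ∀ p : ℕ, p.Prime → z < p → Γ ≤ A * Real.log p ^ k)
    (hC : ∀ S : Finset ℕ, (∀ p ∈ S, 2 ≤ p) →
      ∑ p ∈ S, Real.log p ^ (k + 1) / (p * (p - 1)) ≤ C) :
    Γ * ∑ t ∈ Icc 1 N, Rs f z w Y (N ^ d) t ≤
      A * (w + 1) * M0 * C * N + Γ * (Y * (M0 * d * Real.log N)) := by
  have l0 : 0 ≤ Real.log N := Real.log_natCast_nonneg N
  have key : ∀ p ∈ Y.primesLE.filter (z < ·), Γ * ∑ t ∈ Icc 1 N, Real.log p *
      ∑ e ∈ Icc 1 (Nat.log p (N ^ d)) with (2 ≤ e ∨ p ≤ w),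
        (if (p : ℤ) ^ e ∣ f.eval (t : ℤ) then (1 : ℝ) else 0) ≤
      A * (w + 1) * M0 * N * (Real.log p ^ (k + 1) / (p * (p - 1))) +
        Γ * (M0 * d * Real.log N) := by
    intro p hp
    obtain ⟨a1, a2⟩ := mem_filter.1 hp
    have hp' := Nat.prime_of_mem_primesLE a1
    have p1 : (1 : ℝ) < p := by exact_mod_cast hp'.one_lt
    have p0 : (0 : ℝ) < p - 1 := by linarith only [p1]
    have k3 : 0 ≤ Real.log p := Real.log_natCast_nonneg p
    have k2 : (Nat.log p (N ^ d) : ℝ) * Real.log p ≤ d * Real.log N := by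
      rw [← Real.log_pow, ← Real.log_pow]
      refine Real.log_le_log (by positivity) ?_
      exact_mod_cast Nat.pow_log_le_self p (by positivity)
    generalize Nat.log p (N ^ d) = E at *
    have g := geom_sm p1 E
    have k4 : ∑ e ∈ Icc 1 E with (2 ≤ e ∨ p ≤ w), 1 / (p : ℝ) ^ e ≤ (w + 1) / (p * (p - 1)) := by
      by_cases c : p ≤ w
      · refine (sum_le_sum_of_subset_of_nonneg (t := insert 1 (Icc 2 E)) (fun e he => ?_)
          fun _ _ _ => by positivity).trans ?_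
        · have := mem_Icc.1 (mem_filter.1 he).1
          simp only [mem_insert, mem_Icc]
          omega
        · rw [sum_insert (by simp), add_div, pow_one]
          refine add_le_add ?_ g
          have : (p : ℝ) ≤ w := Nat.cast_le.2 c
          rw [div_le_div_iff₀ (by positivity) (by positivity)]
          nlinarith only [this, p1]
      · refine (sum_le_sum_of_subset_of_nonneg (t := Icc 2 E) (fun e he => ?_)
          fun _ _ _ => by positivity).trans (g.trans ?_)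
        · have := mem_filter.1 he
          have := mem_Icc.1 this.1
          simp only [mem_Icc]
          omega
        · gcongr
          exact le_add_of_nonneg_left (Nat.cast_nonneg _)
    have k5 : (((Icc 1 E).filter fun e => 2 ≤ e ∨ p ≤ w).card : ℝ) ≤ E := by
      exact_mod_cast (card_filter_le _ _).trans (by simp)
    have k6 : ∑ t ∈ Icc 1 N, ∑ e ∈ Icc 1 E with (2 ≤ e ∨ p ≤ w),
        (if (p : ℤ) ^ e ∣ f.eval (t : ℤ) then (1 : ℝ) else 0) ≤
        M0 * N * ((w + 1) / (p * (p - 1))) + M0 * E := by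
      rw [sum_comm]
      simp only [sum_boole]
      refine (sum_le_sum fun e _ => hM p hp' e).trans ?_
      calc _ = M0 * N * ∑ e ∈ Icc 1 E with (2 ≤ e ∨ p ≤ w), 1 / (p : ℝ) ^ e +
            M0 * (((Icc 1 E).filter fun e => 2 ≤ e ∨ p ≤ w).card : ℝ) := by
            rw [mul_sum, card_eq_sum_ones, Nat.cast_sum, mul_sum, ← sum_add_distrib]
            exact sum_congr rfl fun e _ => by push_cast; ring
        _ ≤ _ := by gcongr
    rw [← mul_sum]
    calc _ ≤ Γ * (Real.log p * (M0 * N * ((w + 1) / (p * (p - 1))) + M0 * E)) := by gcongr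
      _ = Γ * (Real.log p * (M0 * N * ((w + 1) / (p * (p - 1))))) +
          Γ * (M0 * (E * Real.log p)) := by ring
      _ ≤ A * Real.log p ^ k * (Real.log p * (M0 * N * ((w + 1) / (p * (p - 1))))) +
          Γ * (M0 * (d * Real.log N)) := by
          gcongr
          exact hΓ p hp' a2
      _ = _ := by ring
  unfold Rs
  rw [sum_comm, mul_sum]
  refine (sum_le_sum key).trans ?_
  rw [sum_add_distrib, ← mul_sum, sum_const, nsmul_eq_mul]
  have c1 : ((Y.primesLE.filter (z < ·)).card : ℝ) ≤ Y := by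
    refine Nat.cast_le.2 ((card_le_card (t := Icc 1 Y) fun p hp => ?_).trans (by simp))
    have := Nat.mem_primesLE.1 (mem_filter.1 hp).1
    exact mem_Icc.2 ⟨this.2.pos, this.1⟩
  have c2 := hC (Y.primesLE.filter (z < ·)) fun p hp =>
    (Nat.prime_of_mem_primesLE (mem_filter.1 hp).1).two_le
  calc _ ≤ A * (w + 1) * M0 * N * C + Y * (Γ * (M0 * d * Real.log N)) := by gcongr
    _ = _ := by ring

lemma comb {S : Finset ℕ} {μ s lg R x a y : ℕ → ℝ} {l d ε c U : ℝ} (μ0 : ∀ t, 0 ≤ μ t)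
    (hp : ∀ t ∈ S, μ t ≠ 0 →
      (d - ε) * l ≤ s t + lg t + R t + (1 + c) * l * (d - 1 + x t - a t) + (d + 1) * l * y t)
    (l0 : 0 < l) (U0 : 0 ≤ U) (ε0 : 0 ≤ ε) (ε1 : ε ≤ 1 / 20) (c0 : 0 ≤ c) (hc : c * d ≤ ε)
    (h1 : ∑ t ∈ S, μ t * s t ≤ ε * U * l) (h2 : ∑ t ∈ S, μ t * lg t ≤ (1 + 2 * ε) * U * l)
    (h3 : ∑ t ∈ S, μ t * R t ≤ 2 * ε * U * l) (h4 : ∑ t ∈ S, μ t * x t ≤ 2 * ε * U)
    (h5 : 19 * ε * U ≤ ∑ t ∈ S, μ t * a t) (h6 : (1 - 2 * ε) * U ≤ ∑ t ∈ S, μ t) :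
    5 * ε * U ≤ (d + 1) * ∑ t ∈ S, μ t * y t := by
  have k : ∑ t ∈ S, μ t * ((d - ε) * l) ≤ ∑ t ∈ S, μ t * (s t + lg t + R t +
      (1 + c) * l * (d - 1 + x t - a t) + (d + 1) * l * y t) := sum_le_sum fun t ht => by
    rcases eq_or_ne (μ t) 0 with h | h
    · simp [h]
    · exact mul_le_mul_of_nonneg_left (hp t ht h) (μ0 t)
  have e : ∑ t ∈ S, μ t * (s t + lg t + R t +
      (1 + c) * l * (d - 1 + x t - a t) + (d + 1) * l * y t) = ∑ t ∈ S, μ t * s t +
      ∑ t ∈ S, μ t * lg t + ∑ t ∈ S, μ t * R t + (1 + c) * l * ((d - 1) * ∑ t ∈ S, μ t +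
      ∑ t ∈ S, μ t * x t - ∑ t ∈ S, μ t * a t) + (d + 1) * l * ∑ t ∈ S, μ t * y t := by
    simp only [mul_sum, ← sum_add_distrib, ← sum_sub_distrib]
    exact sum_congr rfl fun _ _ => by ring
  rw [e, ← sum_mul] at k
  have m0 : 0 ≤ ∑ t ∈ S, μ t := sum_nonneg fun t _ => μ0 t
  generalize ∑ t ∈ S, μ t = m at *
  generalize ∑ t ∈ S, μ t * y t = my at *
  generalize ∑ t ∈ S, μ t * x t = mx at *
  generalize ∑ t ∈ S, μ t * a t = ma at *
  have εU := mul_nonneg ε0 U0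
  have k1 : m * (d - ε) ≤ (1 + 5 * ε) * U + (1 + c) * ((d - 1) * m + mx - ma) + (d + 1) * my :=
    le_of_mul_le_mul_right (by linarith only [k, h1, h2, h3]) l0
  have k2 := mul_le_mul_of_nonneg_left (show mx - ma ≤ 0 by linarith only [h4, h5, εU]) c0
  have k3 := mul_le_mul_of_nonneg_right hc m0
  have k4 := mul_nonneg c0 m0
  have k5 := mul_le_mul_of_nonneg_left h6 (show 0 ≤ 1 - 2 * ε by linarith only [ε1])
  have k6 := mul_nonneg ε0 εU
  linarith only [k1, k2, k3, k4, k5, k6, h4, h5, εU]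

lemma adm_eq (f : ℤ[X]) (T : Finset ℕ) (hT : ∀ p ∈ T, p.Prime) :
    ((adm f (∏ p ∈ T, p)).card : ℝ) / (∏ p ∈ T, p : ℕ) = ∏ p ∈ T, (1 - gg f p) := by
  unfold gg
  rw [← card_adm f T hT]
  congr 3
  refine filter_congr fun n _ => ?_
  rw [Nat.coprime_prod_right_iff]
  refine forall₂_congr fun p hp => ?_
  rw [Nat.coprime_comm, Nat.Prime.coprime_iff_not_dvd (hT p hp), Int.natCast_dvd]

end Pool.Agent.Work.MP_51e72e_nt.SL
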