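import Pool.Agent.Work.MP_51e72e_nt.SL.C

/-!
The glued polynomial and its sieve data.
-/

set_option autoImplicit false

namespace Pool.Agent.Work.MP_51e72e_nt.SL

open Finset Filter Polynomial Pool.Agent.Lib.ANT Pool.Agent.Work.MP_51e72e_nt.Cub
  Pool.Agent.Work.MP_51e72e_nt.Cub.Sv Pool.Agent.Work.MP_51e72e_nt.Sys
  Pool.Agent.Work.MP_51e72e_nt.LP
open Pool.Agent.Work.MP_51e72e_nt.Deg (LevelN adm win es mem_win win_disj)

/-- the congruences defining the glued polynomial -/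
structure Gl (f G0 G : ℤ[X]) (z w Y : ℕ) : Prop where
  g1 : ∀ p : ℕ, p.Prime → p ≤ z → ∀ t : ℤ, (p : ℤ) ∣ G.eval t ↔ (p : ℤ) ∣ G0.eval t
  g2 : ∀ p : ℕ, p.Prime → z < p → p ≤ w → ∀ t : ℤ, ¬ (p : ℤ) ∣ G.eval t
  g3 : ∀ p : ℕ, p.Prime → z < p → w < p → p ≤ Y → ∀ t : ℤ,
    (p : ℤ) ∣ G.eval t ↔ (p : ℤ) ∣ f.eval t

lemma exists_Gl (f G0 : ℤ[X]) {z w Y : ℕ} (h1 : z ≤ Y) (h2 : w ≤ Y) : ∃ G, Gl f G0 G z w Y := by
  obtain ⟨G, hG⟩ := glue Y.primesLE (fun p hp => Nat.prime_of_mem_primesLE hp)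
    fun p => if p ≤ z then G0 else if p ≤ w then 1 else f
  refine ⟨G, fun p hp a t => ?_, fun p hp a b t => ?_, fun p hp a b c t => ?_⟩
  · have := hG p (Nat.mem_primesLE.2 ⟨a.trans h1, hp⟩) t
    rwa [if_pos a] at this
  · have := hG p (Nat.mem_primesLE.2 ⟨b.trans h2, hp⟩) t
    rw [if_neg (by omega), if_pos b, eval_one] at this
    rw [this]
    exact (Nat.prime_iff_prime_int.1 hp).not_dvd_one
  · have := hG p (Nat.mem_primesLE.2 ⟨c, hp⟩) t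
    rwa [if_neg (by omega), if_neg (by omega)] at this

/-- the primes between `w` and `Y` -/
def PP (w Y : ℕ) : Finset ℕ := Y.primesLE.filter (w < ·)

/-- the product of the primes up to `w` -/
def WW (w : ℕ) : ℕ := ∏ p ∈ w.primesLE, p

variable {f G0 G : ℤ[X]} {z w Y D B N Ω : ℕ}

lemma mem_PP {p : ℕ} : p ∈ PP w Y ↔ p.Prime ∧ w < p ∧ p ≤ Y := by
  rw [PP, mem_filter, Nat.mem_primesLE]
  tauto

lemma WW_pos (w : ℕ) : 0 < WW w := prod_pos fun _ hp => (Nat.prime_of_mem_primesLE hp).pos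

lemma dvd_WW {p : ℕ} (hp : p.Prime) (h : p ≤ w) : p ∣ WW w :=
  dvd_prod_of_mem (fun p => p) (Nat.mem_primesLE.2 ⟨h, hp⟩)

lemma Gl.om (g : Gl f G0 G z w Y) (h0 : ∀ p : ℕ, p.Prime → omega G0 p ≤ D)
    (h1 : ∀ p : ℕ, p.Prime → omega f p ≤ D) : ∀ p ∈ PP w Y, omega G p ≤ D := fun p hp => by
  obtain ⟨a, b, c⟩ := mem_PP.1 hp
  rcases le_or_gt p z with k | k
  · exact (omega_congr (g.g1 p a k)).trans_le (h0 p a)
  · exact (omega_congr (g.g3 p a k b c)).trans_le (h1 p a)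

lemma mkHy (ho : ∀ p ∈ PP w Y, omega G p ≤ D) (hw : 2 * D + 1 ≤ w) (hW : WW w ≤ B) (Y2 : 2 ≤ Y)
    (hl : Real.exp (144 * D) * Real.log Y ^ (2 * D) ≤ B)
    (hdiv : ∀ m ≤ N, m.divisors.card ^ (D + 1) ≤ B) (hΩ : Ω ≤ N) :
    Hy G (WW w) D B Ω (PP w Y) := by
  have hp : ∀ U ⊆ PP w Y, ∀ p ∈ U, p.Prime := fun U hU p hp => (mem_PP.1 (hU hp)).1
  refine ⟨fun p hp => ?_, WW_pos w, hW, (prod_hh_le' Y2 fun p hp => ?_).trans hl,
    fun U hU h => ?_, fun U hU h => ?_⟩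
  · obtain ⟨a, b, c⟩ := mem_PP.1 hp
    refine ⟨a, Nat.Coprime.prod_right fun q hq => ?_, ho p hp, by omega⟩
    have := Nat.mem_primesLE.1 hq
    exact (Nat.coprime_primes a this.2).2 (by omega)
  · obtain ⟨a, b, c⟩ := mem_PP.1 hp
    exact ⟨a, c, ho p hp, by omega⟩
  · exact (two_pow_le (hp U hU)).trans ((Nat.le_self_pow (by omega) _).trans (hdiv _ (h.trans hΩ)))
  · have k := two_pow_le (hp U hU)
    refine le_trans ?_ (hdiv _ (h.trans hΩ))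
    rw [Rt, pr, card_roots_prod G U (hp U hU)]
    refine (prod_le_pow_card _ _ (2 ^ (D + 1)) fun p hp => ((ho p (hU hp)).trans
      (Nat.le_succ _)).trans Nat.lt_two_pow_self.le).trans ?_
    rw [← pow_mul, mul_comm, pow_mul]
    exact Nat.pow_le_pow_left k _

lemma Gl.kap (g : Gl f G0 G z w Y) (H : Hy G (WW w) D B Ω (PP w Y)) (hz : z ≤ Y) :
    ((adm G (WW w)).card : ℝ) / WW w = Gam G ((PP w Y).filter (· ≤ z)) *
      ∏ p ∈ (range (z + 1)).filter Nat.Prime, (1 - gg G0 p) := by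
  have e1 : ∏ p ∈ (range (z + 1)).filter Nat.Prime, (1 - gg G0 p) =
      ∏ p ∈ (range (z + 1)).filter Nat.Prime, (1 - gg G p) := prod_congr rfl fun p hp => by
    obtain ⟨a, b⟩ := mem_filter.1 hp
    rw [gg, gg, omega_congr (g.g1 p b (Nat.lt_succ_iff.1 (mem_range.1 a)))]
  have e2 : ((range (z + 1)).filter Nat.Prime).filter (fun p => ¬ p ≤ w) =
      (PP w Y).filter (· ≤ z) := by
    ext p
    simp only [mem_filter, mem_range, mem_PP]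
    constructor
    · rintro ⟨⟨a, b⟩, c⟩
      exact ⟨⟨b, by omega, by omega⟩, by omega⟩
    · rintro ⟨⟨a, b, c⟩, d⟩
      exact ⟨⟨by omega, a⟩, by omega⟩
  have e3 : ∏ p ∈ ((range (z + 1)).filter Nat.Prime).filter (fun p => p ≤ w), (1 - gg G p) =
      ∏ p ∈ w.primesLE, (1 - gg G p) := by
    refine prod_subset (fun p hp => ?_) fun p hp c => ?_
    · simp only [mem_filter] at hp
      exact Nat.mem_primesLE.2 ⟨hp.2, hp.1.2⟩
    · obtain ⟨a, b⟩ := Nat.mem_primesLE.1 hp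
      have k : z < p := by
        by_contra k
        exact c (mem_filter.2 ⟨mem_filter.2 ⟨mem_range.2 (by omega), b⟩, a⟩)
      have : omega G p = 0 := card_eq_zero.2 (filter_eq_empty_iff.2 fun n _ => g.g2 p b k a n)
      simp [gg, this]
  rw [e1, ← prod_filter_mul_prod_filter_not _ (fun p => p ≤ w), e2, e3, mul_left_comm,
    H.gam_inv (filter_subset _ _), mul_one]
  exact adm_eq G _ fun p hp => Nat.prime_of_mem_primesLE hp

lemma Gl.sift (g : Gl f G0 G z w Y) (hz : z ≤ Y) {ξ : ℝ} {t : ℤ}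
    (h : mu G (WW w) (PP w Y) ((PP w Y).filter (· ≤ z)) ξ t ≠ 0) :
    ∀ p : ℕ, p.Prime → p ≤ z → ¬ (p : ℤ) ∣ G0.eval t := by
  intro p hp a b
  have c := (g.g1 p hp a t).2 b
  unfold mu at h
  split_ifs at h with k
  · rcases le_or_gt p w with q | q
    · exact hp.one_lt.ne' (Nat.eq_one_of_dvd_coprimes k.1 (Int.natCast_dvd.1 c) (dvd_WW hp q))
    · have m := mem_PP.2 ⟨hp, q, a.trans hz⟩
      exact disjoint_left.1 k.2 (mem_filter.2 ⟨m, a⟩) (mem_filter.2 ⟨m, c⟩)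
  · exact h rfl

lemma Gl.wi (g : Gl f G0 G z w Y) {β a : ℕ} (hz : z ≤ B) (hw : w ≤ B) (h1 : B ≤ β ^ a)
    (h2 : β ^ (a + 1) ≤ Y) : (∀ p ∈ win (PP w Y) (β ^ ·) a, p.Prime ∧ z < p ∧ p ≤ Y ∧
      ∀ t : ℤ, (p : ℤ) ∣ G.eval t ↔ (p : ℤ) ∣ f.eval t) ∧
      ∑ p ∈ win (PP w Y) (β ^ ·) a, gg G p =
        ∑ p ∈ (Ioc (β ^ a) (β ^ (a + 1))).filter Nat.Prime, (omega f p : ℝ) / p := by
  have k : ∀ p ∈ win (PP w Y) (β ^ ·) a, p.Prime ∧ z < p ∧ p ≤ Y ∧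
      ∀ t : ℤ, (p : ℤ) ∣ G.eval t ↔ (p : ℤ) ∣ f.eval t := fun p hp => by
    obtain ⟨a1, a2, a3⟩ := mem_win.1 hp
    obtain ⟨a4, a5, a6⟩ := mem_PP.1 a1
    have a7 : z < p := (hz.trans h1).trans_lt a2
    exact ⟨a4, a7, a6, g.g3 p a4 a7 a5 a6⟩
  refine ⟨k, ?_⟩
  rw [sum_congr rfl fun p hp => show gg G p = (omega f p : ℝ) / p by
    rw [gg, omega_congr (k p hp).2.2.2]]
  refine sum_congr ?_ fun _ _ => rfl
  ext p
  simp only [mem_win, mem_PP, mem_filter, mem_Ioc]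
  constructor
  · rintro ⟨⟨a1, -, -⟩, a2, a3⟩
    exact ⟨⟨a2, a3⟩, a1⟩
  · rintro ⟨⟨a2, a3⟩, a1⟩
    exact ⟨⟨a1, (hw.trans h1).trans_lt a2, a3.trans h2⟩, a2, a3⟩

end Pool.Agent.Work.MP_51e72e_nt.SL
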