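import Pool.Agent.Work.MP_51e72e_nt.SL.D

/-!
The weighted Chebyshev argument at a finite level.
-/

set_option autoImplicit false

namespace Pool.Agent.Work.MP_51e72e_nt.SL

open Finset Filter Polynomial Pool.Agent.Lib.ANT Pool.Agent.Work.MP_51e72e_nt.Cub
  Pool.Agent.Work.MP_51e72e_nt.Cub.Sv Pool.Agent.Work.MP_51e72e_nt.Sys
  Pool.Agent.Work.MP_51e72e_nt.LP
open Pool.Agent.Work.MP_51e72e_nt.Deg (LevelN adm win es mem_win win_disj)

open Classical in
theorem fin {f G0 : ℤ[X]} {D d n e0 u J M s v r j w M0 C0 B b B1 N z : ℕ} {e : ℕ → ℕ}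
    {γ ε c CT B0 : ℝ} (hf : Irreducible f) (hd : f.natDegree = d) (d2 : 2 ≤ d) (dD : d ≤ D)
    (fG : f ∣ G0) (hω : ∀ p : ℕ, p.Prime → omega G0 p ≤ D)
    (hn : 1 ≤ n) (he0 : 1 ≤ e0) (he : ∀ k, 1 ≤ e k) (hu : u = n + 3)
    (hJ : J = u * (e0 + ∑ k ∈ range n, e k)) (hM : M = d * J + 1) (hγ : γ = 1 / (2 * (J : ℝ)))
    (hε : γ ^ (n + 1) = 40 * ε * (M : ℝ) ^ (n + 1)) (ε0 : 0 < ε) (ε1 : ε ≤ 1 / 20)
    (hs : 6 * (D : ℝ) ≤ ε * s) (s10 : 10 ≤ s)
    (hr : 1 / ε ≤ ∑ a ∈ Ico (2 * d + 1) r, 1 / (2 * ((a : ℝ) + 1)))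
    (hv1 : 2 * r + 2 * d + 6 ≤ v) (hv2 : (d : ℝ) + 1 ≤ ε * v) (hj : v * J = j + 2)
    (c0 : 0 < c) (hc : c * d ≤ ε) (hw : 2 * D + 1 ≤ w)
    (hb : b = B ^ (2 * s + 1)) (hB1 : B1 = b ^ v) (N1 : b ^ (j + 2) ≤ N) (N2 : N ≤ 2 * b ^ (j + 2))
    (hz : z ≤ B) (a0 : 2 ≤ B)
    (a1 : ∀ L, N ≤ L * B1 ^ u → L ≤ N → LevelN f n (WW w) N L ((B1 ^ u) ^ e0) ((B1 ^ u) ^ (e0 + 1))
      (B1 ^ u) (fun k => (B1 ^ u) ^ e k) (fun k => (B1 ^ u) ^ (e k + 1)) ((N : ℝ) / (B1 ^ u : ℕ)))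
    (a2 : ∀ a, 1 ≤ a → a < J → 1 / (2 * ((a : ℝ) + 1)) ≤
      ∑ p ∈ (Ioc (B1 ^ a) (B1 ^ (a + 1))).filter Nat.Prime, (omega f p : ℝ) / p)
    (a3 : ∀ a, 1 ≤ a → a < r → 1 / (2 * ((a : ℝ) + 1)) ≤
      ∑ p ∈ (Ioc (b ^ a) (b ^ (a + 1))).filter Nat.Prime, (omega f p : ℝ) / p)
    (a4 : ∑ p ∈ (Ioc 0 (b ^ j)).filter Nat.Prime, (omega f p : ℝ) * Real.log p / p ≤
      (1 + ε) * Real.log (b ^ j : ℕ))
    (a5 : ∀ m ≤ N, m.divisors.card ^ (D + 1) ≤ B)
    (a6 : Real.exp (144 * D) * Real.log (b ^ j : ℕ) ^ (2 * D) ≤ B)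
    (a7 : WW w ≤ B) (a8 : w ≤ B) (a9 : 14 ≤ Real.log B)
    (a10 : ∀ (A : ℕ) (t : ℤ), 1 ≤ A → t.natAbs ≤ A → (f.eval t).natAbs ≤ C0 * A ^ d)
    (a11 : C0 * 4 ^ d ≤ B)
    (a12 : ∀ t : ℕ, 1 ≤ t → d * Real.log t - B0 ≤ Real.log ((f.eval (t : ℤ)).natAbs : ℝ))
    (a13 : B0 ≤ Real.log B) (a14 : 1 / ε ≤ B)
    (a15 : ∀ p : ℕ, p.Prime → ∀ e : ℕ,
      (((Icc 1 N).filter fun n : ℕ => (p : ℤ) ^ e ∣ f.eval (n : ℤ)).card : ℝ)
        ≤ M0 * ((N : ℝ) / (p : ℝ) ^ e + 1)) (a16 : M0 * (d + 1) ≤ B)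
    (a17 : ∀ S : Finset ℕ, (∀ p ∈ S, 2 ≤ p) →
      ∑ p ∈ S, Real.log p ^ (2 * D + 1) / (p * (p - 1)) ≤ CT)
    (a18 : Real.exp (144 * D) * (w + 1) * M0 * CT * WW w ≤ ε * Real.log B) :
    5 * ε / (d + 1) * N * ∏ p ∈ (range (z + 1)).filter Nat.Prime, (1 - gg G0 p) ≤
      (((Icc 1 N).filter fun t : ℕ => (∀ p : ℕ, p.Prime → p ≤ z → ¬ (p : ℤ) ∣ G0.eval (t : ℤ)) ∧
        ∃ p : ℕ, p.Prime ∧ (p : ℤ) ∣ f.eval (t : ℤ) ∧ (N : ℝ) ^ (1 + c) < p).card : ℝ) := by
  obtain ⟨S, hS⟩ : ∃ S, S = e0 + ∑ k ∈ range n, e k := ⟨_, rfl⟩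
  rw [← hS] at hJ
  have hek : ∀ k < n, e k + 1 ≤ S := fun k hk => by
    have := single_le_sum (f := e) (fun _ _ => Nat.zero_le _) (mem_range.mpr hk)
    omega
  have he1 : e0 + 1 ≤ S := by
    have := single_le_sum (f := e) (fun _ _ => Nat.zero_le _) (mem_range.mpr hn)
    have := he 0
    omega
  have w0 : u * e0 + u ≤ J := by rw [hJ, ← Nat.mul_succ]; exact Nat.mul_le_mul_left _ he1
  have w2 : ∀ k < n, u * e k + u ≤ J := fun k hk => by
    rw [hJ, ← Nat.mul_succ]; exact Nat.mul_le_mul_left _ (hek k hk)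
  have w3 : ∀ x y k k', k < u → k' < u → k ≠ k' → u * x + k ≠ u * y + k' := by
    intro x y k k' a1 a2 a3 a4
    have := congrArg (· % u) a4
    simp only [Nat.mul_add_mod, Nat.mod_eq_of_lt a1, Nat.mod_eq_of_lt a2] at this
    exact a3 this
  have w4 : ∀ k, 1 ≤ u * e k + k := fun k =>
    (Nat.mul_pos (by omega) (he k)).trans_le (Nat.le_add_right _ _)
  have w5 : J + 2 ≤ u * e0 + (n + 1) + ∑ k ∈ range n, (u * e k + k) := by
    rw [sum_add_distrib, ← mul_sum, hJ, hS, mul_add]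
    omega
  have J2 : 2 ≤ J := by omega
  have jv : v ≤ j := by
    have := Nat.mul_le_mul_left v J2
    omega
  have bB : B ^ 21 ≤ b := hb ▸ Nat.pow_le_pow_right (by omega) (by omega)
  have Bb : B ≤ b := (Nat.le_self_pow (by omega) B).trans bB
  have b2 : 2 ≤ b := a0.trans Bb
  have hp : ∀ {x y : ℕ}, x ≤ y → b ^ x ≤ b ^ y := fun h => Nat.pow_le_pow_right (by omega) h
  have bp : ∀ {x : ℕ}, 1 ≤ x → b ≤ b ^ x := fun h => Nat.le_self_pow (by omega) b
  have bB1 : b ≤ B1 := hB1 ▸ bp (by omega)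
  have hq : ∀ {x y : ℕ}, x ≤ y → B1 ^ x ≤ B1 ^ y := fun h => Nat.pow_le_pow_right (by omega) h
  have bq : ∀ {x : ℕ}, 1 ≤ x → B1 ≤ B1 ^ x := fun h => Nat.le_self_pow (by omega) B1
  have BJ : B1 ^ J = b ^ (j + 2) := by rw [hB1, ← pow_mul, hj]
  have BY : ∀ a, a + 2 ≤ J → B1 ^ (a + 1) ≤ b ^ j := fun a ha => by
    rw [hB1, ← pow_mul]
    refine hp ?_
    have := Nat.mul_le_mul_left v ha
    have : v * (a + 2) = v * (a + 1) + v := by ring
    omega
  have bY : b ≤ b ^ j := bp (by omega)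
  have YN : b ^ j ≤ N := (hp (by omega)).trans N1
  have N0 : 0 < N := by omega
  have zY : z ≤ b ^ j := by omega
  have hωf : ∀ p : ℕ, p.Prime → omega f p ≤ D := fun p hp =>
    (omega_le_natDegree (hf.isPrimitive (by omega)) hp).trans (by omega)
  have f0 := eval_ne_zero hf (by omega)
  obtain ⟨G, g⟩ := exists_Gl f G0 zY (show w ≤ b ^ j by omega)
  have om := g.om hω hωf
  have H := mkHy om hw a7 (by omega) a6 a5 ((hp (show j + 1 ≤ j + 2 by omega)).trans N1)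
  have H' := mkHy om hw a7 (by omega) a6 a5 le_rfl
  have kap := g.kap H zY
  have sift := fun ξ t => g.sift zY (ξ := ξ) (t := t)
  have wi := fun β a => g.wi (β := β) (a := a) hz a8
  have mP : ∀ p, p ∈ PP w (b ^ j) ↔ p.Prime ∧ w < p ∧ p ≤ b ^ j := fun p => mem_PP
  have W0 := WW_pos w
  generalize PP w (b ^ j) = P at *
  generalize WW w = W at *
  obtain ⟨Ps, hPs⟩ : ∃ Ps, Ps = P.filter (· ≤ z) := ⟨_, rfl⟩
  rw [← hPs] at kap sift
  have sP : Ps ⊆ P := hPs ▸ filter_subset _ _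
  have sz : ∀ p ∈ Ps, p ≤ z := fun p hp => by rw [hPs] at hp; exact (mem_filter.1 hp).2
  have dz : ∀ {A : Finset ℕ}, (∀ p ∈ A, z < p) → Disjoint A Ps := fun h =>
    disjoint_left.2 fun p a b => (h p a).not_ge (sz p b)
  obtain ⟨L, hL⟩ : ∃ L, L = N / B1 ^ u + 1 := ⟨_, rfl⟩
  have bu : b ≤ B1 ^ u := bB1.trans (bq (by omega))
  have uN : B1 ^ u ≤ N := ((hq (by omega)).trans BJ.le).trans N1
  have L0 : 0 < L := hL ▸ Nat.succ_pos _
  have L1 : L ≤ N := by
    have := Nat.div_lt_self N0 (show 1 < B1 ^ u by omega)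
    omega
  have L2 : L * b ≤ 2 * N := by
    refine (Nat.mul_le_mul_left _ bu).trans ?_
    have := Nat.div_mul_le_self N (B1 ^ u)
    rw [hL, add_mul]
    omega
  have lev := a1 L (by rw [hL, mul_comm]; exact (Nat.lt_mul_div_succ N (by omega)).le) L1
  have B2 : (2 : ℝ) ≤ B := by exact_mod_cast a0
  have B1' : (1 : ℝ) ≤ B := by linarith only [B2]
  have b0 : (0 : ℝ) < b := by positivity
  have N0' : (0 : ℝ) < N := by positivity
  obtain ⟨τ, hτ⟩ : ∃ τ : ℝ, τ = N / b := ⟨_, rfl⟩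
  have τ0 : 0 ≤ τ := by rw [hτ]; positivity
  have t1 : ((b ^ (j + 1) : ℕ) : ℝ) ≤ τ := by
    rw [hτ, le_div_iff₀ b0]
    exact_mod_cast (pow_succ b (j + 1)).ge.trans N1
  have t2 : (L : ℝ) ≤ 2 * τ := by
    rw [hτ, ← mul_div_assoc, le_div_iff₀ b0]
    exact_mod_cast L2
  have t3 : (N : ℝ) / (B1 ^ u : ℕ) ≤ τ := hτ ▸ div_le_div_of_nonneg_left N0'.le b0 (Nat.cast_le.2 bu)
  have t4 : ((b ^ j : ℕ) : ℝ) ≤ τ := (Nat.cast_le.2 (hp (by omega))).trans t1
  obtain ⟨ξ, hξ⟩ : ∃ ξ : ℝ, ξ = (B : ℝ) ^ s := ⟨_, rfl⟩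
  have ξB : (B : ℝ) ≤ ξ := hξ ▸ le_self_pow₀ B1' (by omega)
  have ξ1 : 1 < ξ := by linarith only [ξB, B2]
  have ξ2 : ξ * ξ * B = b := by rw [hξ, hb]; push_cast; ring
  have ξ3 : ∀ i ≤ j, ξ * ξ * (b ^ i : ℕ) ≤ (b ^ (j + 1) : ℕ) := fun i hi => by
    rw [pow_succ', Nat.cast_mul]
    exact mul_le_mul (ξ2 ▸ le_mul_of_one_le_right (by positivity) B1') (Nat.cast_le.2 (hp hi))
      (Nat.cast_nonneg _) b0.le
  have ξ4 : ξ * ξ * B ≤ (b ^ (j + 1) : ℕ) := ξ2.trans_le (Nat.cast_le.2 (bp (by omega)))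
  have Γ1 := H.one_le sP
  have ΓB := H.le_K sP
  have yP : ∀ p ∈ Ps, (p : ℝ) ≤ B := fun p hp => Nat.cast_le.2 ((sz p hp).trans hz)
  have hX : Gam G Ps * (1 - ε) ≤ EX (gg G) P (Xi (hh G) Ps ξ) := by
    have := EX_Xi' (η := ε / 3) (fun p hp => H.prime p (sP hp)) sP H.h0 H.hg ξ1
      (fun p hp => (yP p hp).trans ξB) ((sum_log_le' (f := G) (D := D) (Z := B) (by omega)
        fun p hp => ⟨H.prime p (sP hp), (sz p hp).trans hz, om p (sP hp)⟩).trans (by
          rw [hξ, Real.log_pow]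
          have := mul_le_mul_of_nonneg_right hs (show 0 ≤ Real.log B by linarith only [a9])
          have := mul_le_mul_of_nonneg_left a9 (Nat.cast_nonneg (α := ℝ) D)
          linarith))
    rwa [mul_div_cancel₀ _ three_ne_zero] at this
  have ΓA : ∀ p : ℕ, p.Prime → z < p → Gam G Ps ≤ Real.exp (144 * D) * Real.log p ^ (2 * D) :=
    fun p hp k => prod_hh_le' hp.two_le fun q hq => ⟨H.prime q (sP hq), (sz q hq).trans k.le,
      om q (sP hq), by have := (H.pri q (sP hq)).2.2.2; omega⟩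
  rcases Nat.eq_zero_or_pos (adm G W).card with k0 | k0
  · rw [k0, Nat.cast_zero, zero_div, eq_comm, mul_eq_zero] at kap
    rw [kap.resolve_left (by linarith only [Γ1]), mul_zero]
    exact Nat.cast_nonneg _
  have W0' : (0 : ℝ) < W := Nat.cast_pos.2 W0
  have κ1 : 1 ≤ ((adm G W).card : ℝ) / W * W := by
    rw [div_mul_cancel₀ _ W0'.ne']
    exact_mod_cast k0
  have κ0 : 0 ≤ ((adm G W).card : ℝ) / W := by positivity
  obtain ⟨U, hU⟩ : ∃ U : ℝ, U = ((N : ℝ) + L) * ((adm G W).card / W) * Gam G Ps := ⟨_, rfl⟩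
  have U0 : 0 ≤ U := by rw [hU]; positivity
  have U1 : N * Gam G Ps ≤ U * W := by
    calc _ ≤ ((N : ℝ) + L) * Gam G Ps * ((adm G W).card / W * W) :=
          (mul_le_mul_of_nonneg_right (by simp) (by positivity)).trans
            (le_mul_of_one_le_right (by positivity) κ1)
      _ = _ := by rw [hU]; ring
  have hk : ∀ i ≤ 14, 4 * ((B : ℝ) ^ i * τ) ≤ ε * U := fun i hi => by
    have k1 : 4 * (B : ℝ) ^ i * B ^ 2 ≤ b := by
      calc _ ≤ (B : ℝ) ^ 2 * B ^ 14 * B ^ 2 := by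
            gcongr
            nlinarith only [B2]
        _ ≤ (B : ℝ) ^ 21 := by
            rw [← pow_add, ← pow_add]
            exact pow_le_pow_right₀ B1' (by omega)
        _ ≤ _ := by exact_mod_cast bB
    have k2 : (N : ℝ) ≤ U * B := ((le_mul_of_one_le_right N0'.le Γ1).trans U1).trans
      (mul_le_mul_of_nonneg_left (Nat.cast_le.2 a7) U0)
    rw [div_le_iff₀ ε0] at a14
    refine le_of_mul_le_mul_right ?_ (show (0 : ℝ) < B ^ 2 by positivity)
    calc _ = 4 * (B : ℝ) ^ i * B ^ 2 * τ := by ring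
      _ ≤ b * τ := mul_le_mul_of_nonneg_right k1 τ0
      _ = N * 1 := by rw [hτ]; field_simp
      _ ≤ U * B * (B * ε) := by gcongr
      _ = _ := by ring
  have pτ : ∀ i, 0 ≤ (B : ℝ) ^ i * τ := fun i => by positivity
  obtain ⟨β, hβ⟩ : ∃ β : ℝ, β = Real.log b := ⟨_, rfl⟩
  obtain ⟨l, hl⟩ : ∃ l : ℝ, l = Real.log N := ⟨_, rfl⟩
  have βB : Real.log B ≤ β := hβ ▸ Real.log_le_log (by positivity) (Nat.cast_le.2 Bb)
  have lY : Real.log (b ^ j : ℕ) ≤ l := hl ▸ Real.log_le_log (by positivity) (Nat.cast_le.2 YN)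
  have lβ : v * β ≤ l := by
    refine le_trans ?_ lY
    rw [Nat.cast_pow, Real.log_pow, ← hβ]
    exact mul_le_mul_of_nonneg_right (Nat.cast_le.2 jv) (by linarith only [βB, a9])
  have lB : Real.log B ≤ l := hl ▸ Real.log_le_log (by positivity) (Nat.cast_le.2 (by omega))
  have l0 : 0 < l := by linarith only [lB, a9]
  have fb : ∀ t : ℤ, t.natAbs ≤ N + L → (f.eval t).natAbs ≤ b ^ (d * (j + 2) + 1) := fun t ht => by
    refine (a10 (4 * b ^ (j + 2)) t (by omega) (by omega)).trans ?_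
    rw [mul_pow, ← mul_assoc, ← pow_mul, pow_succ', mul_comm (j + 2)]
    exact Nat.mul_le_mul_right _ (by omega)
  have fN : ∀ t ∈ Icc 1 N, (f.eval (t : ℤ)).natAbs ≤ N ^ (d + 1) := fun t ht => by
    refine (a10 N t N0 (by simpa using (mem_Icc.1 ht).2)).trans ?_
    rw [pow_succ']
    exact Nat.mul_le_mul_right _ ((Nat.le_mul_of_pos_right _ (by positivity)).trans
      (a11.trans (by omega)))
  have μ1 := H.mu_le sP ξ1
  have μ0 : ∀ t, 0 ≤ mu G W P Ps ξ t := fun t => mu_nonneg t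
  -- the second moment weight
  obtain ⟨Q, hQ⟩ : ∃ Q, Q = (Ico (2 * d + 1) r).biUnion (win P (b ^ ·)) := ⟨_, rfl⟩
  have wb := fun a (ha : a ∈ Ico (2 * d + 1) r) => wi b a
    (Bb.trans (bp (by have := mem_Ico.1 ha; omega))) (hp (by have := mem_Ico.1 ha; omega))
  have mQ : ∀ p ∈ Q, p ∈ P ∧ b ^ (2 * d + 1) < p ∧ p ≤ b ^ r ∧ z < p ∧
      ∀ t : ℤ, (p : ℤ) ∣ G.eval t ↔ (p : ℤ) ∣ f.eval t := fun p hp' => by
    rw [hQ] at hp'
    obtain ⟨a, ha, k⟩ := mem_biUnion.1 hp'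
    obtain ⟨k1, k2, k3⟩ := mem_win.1 k
    have := mem_Ico.1 ha
    exact ⟨k1, (hp this.1).trans_lt k2, k3.trans (hp this.2), ((wb a ha).1 p k).2.1,
      ((wb a ha).1 p k).2.2.2⟩
  have QP : Q ⊆ P := fun p hp => (mQ p hp).1
  obtain ⟨h, hh'⟩ : ∃ h : ℝ, h = 1 + ∑ p ∈ Q, hh G p := ⟨_, rfl⟩
  have h1 : 1 / ε ≤ h := by
    have k1 : ∑ p ∈ Q, gg G p ≤ ∑ p ∈ Q, hh G p := sum_le_sum fun p hp => H.g_le p (QP hp)
    rw [hQ, sum_biUnion fun a _ a' _ h =>
      win_disj (fun _ _ => Nat.pow_le_pow_right (by omega)) h, ← hQ] at k1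
    have k2 := sum_le_sum fun a (ha : a ∈ Ico (2 * d + 1) r) =>
      (a3 a (by have := mem_Ico.1 ha; omega) (mem_Ico.1 ha).2).trans_eq (wb a ha).2.symm
    linarith only [k1, k2, hr, hh']
  have h2 : 1 ≤ h := le_trans (by rw [le_div_iff₀ ε0]; linarith only [ε1]) h1
  have main := comb (S := Icc 1 N) (μ := fun t => mu G W P Ps ξ t)
    (s := fun t => if b * t < N then d * l else 0) (lg := fun t => Lg (P \ Ps) (TT G P t))
    (R := fun t => Rs f z w (b ^ j) (N ^ (d + 1)) t)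
    (x := fun t => (Ph (hh G) Q * Ph (hh G) Q) (TT G P t) / h ^ 2)
    (a := fun t => if (j + 2 * d + 2) * Real.log b ≤ lam1 f (b ^ j) t then 1 else 0)
    (y := fun t => if ∃ p : ℕ, p.Prime ∧ (p : ℤ) ∣ f.eval (t : ℤ) ∧ (N : ℝ) ^ (1 + c) < p
      then 1 else 0) (l := l) (d := d) (U := U) (fun t => μ0 t) (fun t ht hμ => ?_) l0 U0 ε0.le
    ε1 c0.le hc ?_ ?_ ?_ ?_ ?_ ?_
  · have k1 : ∑ t ∈ Icc 1 N, (mu G W P Ps ξ t * if ∃ p : ℕ, p.Prime ∧ (p : ℤ) ∣ f.eval (t : ℤ) ∧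
        (N : ℝ) ^ (1 + c) < p then 1 else 0) ≤ Gam G Ps ^ 2 * (((Icc 1 N).filter fun t : ℕ =>
        (∀ p : ℕ, p.Prime → p ≤ z → ¬ (p : ℤ) ∣ G0.eval (t : ℤ)) ∧
        ∃ p : ℕ, p.Prime ∧ (p : ℤ) ∣ f.eval (t : ℤ) ∧ (N : ℝ) ^ (1 + c) < p).card : ℝ) := by
      rw [← sum_boole, mul_sum]
      refine sum_le_sum fun t _ => ?_
      rcases eq_or_ne (mu G W P Ps ξ t) 0 with k | k
      · rw [k, zero_mul]
        positivity
      · rw [if_congr (and_iff_right (sift ξ t k)) rfl rfl]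
        exact mul_le_mul_of_nonneg_right (μ1 t) (by split_ifs <;> norm_num)
    have d1 : (0 : ℝ) < d + 1 := by positivity
    have k2 := main.trans (mul_le_mul_of_nonneg_left k1 d1.le)
    rw [kap] at κ0
    rw [hU, kap] at k2
    have k3 := nonneg_of_mul_nonneg_right κ0 (by linarith only [Γ1])
    generalize ∏ p ∈ (range (z + 1)).filter Nat.Prime, (1 - gg G0 p) = π at *
    refine le_of_mul_le_mul_left (le_trans ?_ (k2.trans_eq (mul_assoc _ _ _).symm))
      (show 0 < ((d : ℝ) + 1) * Gam G Ps ^ 2 by positivity)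
    calc _ = 5 * ε * (N * (Gam G Ps * π) * Gam G Ps) := by field_simp
      _ ≤ _ := by
        gcongr
        simp
  · have t1' := mem_Icc.1 ht
    have ft := f0 t
    have sp := lam1_split (w := w) (Y := b ^ j) (Q := P \ Ps) (T := TT G P t) ft (fN t ht)
      (fun p hp k q => sift ξ t hμ p hp k (q.trans (eval_dvd fG))) fun p hp k1 k2 k3 k4 => by
        have m := (mP p).2 ⟨hp, k2, k3⟩
        exact mem_inter.2 ⟨mem_sdiff.2 ⟨m, fun q => k1.not_ge (sz p q)⟩,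
          mem_filter.2 ⟨m, (g.g3 p hp k1 k2 k3 t).2 k4⟩⟩
    have x0 : 0 ≤ (Ph (hh G) Q * Ph (hh G) Q) (TT G P t) / h ^ 2 :=
      div_nonneg (mul_self_nonneg _) (sq_nonneg _)
    have low : (d - ε) * l ≤ (if b * t < N then d * l else 0) +
        Real.log ((f.eval (t : ℤ)).natAbs : ℝ) := by
      split_ifs with k
      · have := Real.log_natCast_nonneg (f.eval (t : ℤ)).natAbs
        have := mul_pos ε0 l0
        linarith
      · have k1 : l ≤ β + Real.log t := by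
          rw [hl, hβ, ← Real.log_mul b0.ne' (Nat.cast_ne_zero.2 (by omega))]
          exact Real.log_le_log N0' (by exact_mod_cast not_lt.1 k)
        have k2 := mul_le_mul_of_nonneg_left k1 (Nat.cast_nonneg (α := ℝ) d)
        have k3 := mul_le_mul_of_nonneg_right hv2 (show 0 ≤ β by linarith only [βB, a9])
        have k4 := mul_le_mul_of_nonneg_left lβ ε0.le
        linarith only [k2, k3, k4, a12 t t1'.1, a13, βB]
    by_cases k : ∃ p : ℕ, p.Prime ∧ (p : ℤ) ∣ f.eval (t : ℤ) ∧ (N : ℝ) ^ (1 + c) < p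
    · rw [if_pos k]
      have k1 : Real.log ((f.eval (t : ℤ)).natAbs : ℝ) ≤ (d + 1 : ℕ) * l := by
        rw [hl, ← Real.log_pow]
        exact Real.log_le_log (by exact_mod_cast Int.natAbs_pos.2 ft) (by exact_mod_cast fN t ht)
      have k2 := lam1_nonneg_C f (b ^ j) t
      have d2' : (2 : ℝ) ≤ d := by exact_mod_cast d2
      have k3 : 0 ≤ (1 + c) * l * (d - 1 + (Ph (hh G) Q * Ph (hh G) Q) (TT G P t) / h ^ 2 -
          if (j + 2 * d + 2) * Real.log b ≤ lam1 f (b ^ j) t then 1 else 0) :=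
        mul_nonneg (by positivity) (by split_ifs <;> linarith only [d2', x0])
      push_cast at k1
      linarith only [low, k1, k2, k3, sp]
    · rw [if_neg k]
      have := point (T := (1 + c) * l) (j := j)
        (a := if (j + 2 * d + 2) * Real.log b ≤ lam1 f (b ^ j) t then 1 else 0) ft b2 (by omega)
        (fb t (by simp only [Int.natAbs_natCast]; omega)) (fun p hp => ?_) (by positivity) x0
        (fun q => ?_) (by split_ifs with q; exacts [Or.inr ⟨rfl, q⟩, Or.inl rfl])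
      · linarith only [low, this, sp]
      · have pp := Nat.prime_of_mem_primeFactors hp
        have pd : (p : ℤ) ∣ f.eval (t : ℤ) := Int.natCast_dvd.mpr (Nat.dvd_of_mem_primeFactors hp)
        rw [hl, ← Real.log_rpow N0']
        exact Real.log_le_log (by exact_mod_cast pp.pos) (not_lt.mp fun h => k ⟨p, pp, pd, h⟩)
      · have dj : Disjoint Q (TT G P t) := disjoint_left.2 fun p k1 k2 => by
          obtain ⟨m1, m2, -, -, m3⟩ := mQ p k1
          have k3 := sum_log_le_lam1 (Y := b ^ j) (S := {p}) ft fun p' hp' => by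
            obtain rfl := mem_singleton.1 hp'
            exact ⟨H.prime _ m1, ((mP _).1 m1).2.2, (m3 t).1 (mem_filter.1 k2).2⟩
          have k4 := Real.log_lt_log (by positivity) (Nat.cast_lt.2 m2 : ((b ^ (2 * d + 1) : ℕ) : ℝ) < p)
          rw [Nat.cast_pow, Real.log_pow] at k4
          rw [sum_singleton] at k3
          push_cast at k4
          linarith only [k3, k4, q]
        rw [Pi.mul_apply, Ph_disj dj, ← hh', ← sq, div_self (by positivity)]
  · have k1 : ∑ t ∈ Icc 1 N, (mu G W P Ps ξ t * if b * t < N then d * l else 0) ≤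
        ∑ t ∈ Icc 1 (N / b), (B : ℝ) ^ 3 * l := by
      simp only [mul_ite, mul_zero]
      rw [← sum_filter]
      refine (sum_le_sum fun t _ => ?_).trans (sum_le_sum_of_subset_of_nonneg (fun t ht => ?_)
        fun _ _ _ => by positivity)
      · calc _ ≤ (B : ℝ) ^ 2 * (B * l) := by
              gcongr
              · exact (μ1 t).trans (by gcongr)
              · omega
          _ = _ := by ring
      · obtain ⟨k1, k2⟩ := mem_filter.1 ht
        exact mem_Icc.2 ⟨(mem_Icc.1 k1).1, (Nat.le_div_iff_mul_le (by omega)).2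
          (by rw [mul_comm]; exact k2.le)⟩
    rw [sum_const, Nat.card_Icc, Nat.add_sub_cancel, nsmul_eq_mul] at k1
    have k2 : ((N / b : ℕ) : ℝ) ≤ τ := hτ ▸ Nat.cast_div_le
    have k3 := mul_le_mul_of_nonneg_right k2 (show 0 ≤ (B : ℝ) ^ 3 * l by positivity)
    have k4 := mul_le_mul_of_nonneg_right (hk 3 (by omega)) l0.le
    have k5 := mul_nonneg (pτ 3) l0.le
    linarith only [k1, k3, k4, k5]
  · have k0 : ∀ p ∈ P \ Ps, p.Prime ∧ p ≤ b ^ j ∧ gg G p = (omega f p : ℝ) / p := fun p hp => by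
      obtain ⟨m1, m2⟩ := mem_sdiff.1 hp
      obtain ⟨m3, m4, m5⟩ := (mP p).1 m1
      have m6 : z < p := not_le.1 fun q => m2 (by rw [hPs]; exact mem_filter.2 ⟨m1, q⟩)
      exact ⟨m3, m5, by rw [gg, omega_congr (g.g3 p m3 m6 m4 m5)]⟩
    have k1 : EX (gg G) P (Lg (P \ Ps)) ≤ (1 + ε) * l := by
      rw [EX_Lg sdiff_subset]
      refine le_trans ?_ (a4.trans (mul_le_mul_of_nonneg_left lY (by positivity)))
      rw [sum_congr rfl fun (p : ℕ) hp => show Real.log p * gg G p = omega f p * Real.log p / p by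
        rw [(k0 p hp).2.2]; ring]
      exact sum_le_sum_of_subset_of_nonneg (fun p hp => mem_filter.2
        ⟨mem_Ioc.2 ⟨(k0 p hp).1.pos, (k0 p hp).2.1⟩, (k0 p hp).1⟩) fun p _ _ =>
          div_nonneg (mul_nonneg (Nat.cast_nonneg _) (Real.log_natCast_nonneg _)) (Nat.cast_nonneg _)
    have k2 := H.up (N := N) L0 sP sdiff_subset disjoint_sdiff ξ1 (rep_Lg (Q := P \ Ps) (C := l)
      (M := (b ^ j : ℕ)) l0.le fun p hp => ⟨(Real.log_le_log (Nat.cast_pos.2 (k0 p hp).1.pos)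
        (Nat.cast_le.2 (k0 p hp).2.1)).trans lY, Nat.cast_le.2 (k0 p hp).2.1⟩)
      (fun T => by
        rw [Lg_apply]
        exact sum_nonneg fun p _ => mul_nonneg (Real.log_natCast_nonneg _)
          (by split_ifs <;> norm_num))
      (by
        rw [EX_Lg sdiff_subset]
        exact sum_nonneg fun p _ => mul_nonneg (Real.log_natCast_nonneg _)
          (div_nonneg (Nat.cast_nonneg _) (Nat.cast_nonneg _)))
      (by exact_mod_cast (show 1 ≤ b ^ j by omega)) (ξ3 j le_rfl)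
    rw [← mul_assoc, ← hU] at k2
    have k3 := mul_le_mul_of_nonneg_left k1 U0
    have k4 := mul_le_mul_of_nonneg_right t1 (show 0 ≤ l * (B : ℝ) ^ 8 by positivity)
    have k5 := mul_le_mul_of_nonneg_right (hk 8 (by omega)) l0.le
    have k6 := mul_nonneg (pτ 8) l0.le
    linarith only [k2, k3, k4, k5, k6]
  · have Γ0 : 0 ≤ Gam G Ps := by linarith only [Γ1]
    have k1 := sum_Rs (w := w) (Y := b ^ j) (d := d + 1) N0 a15 Γ0 (Real.exp_pos _).le ΓA a17
    have k2 : ∑ t ∈ Icc 1 N, mu G W P Ps ξ t * Rs f z w (b ^ j) (N ^ (d + 1)) t ≤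
        Gam G Ps * (Gam G Ps * ∑ t ∈ Icc 1 N, Rs f z w (b ^ j) (N ^ (d + 1)) t) := by
      rw [← mul_assoc, ← sq, mul_sum]
      exact sum_le_sum fun t _ => mul_le_mul_of_nonneg_right (μ1 t) (Rs_nonneg _ _ _ _ _ _)
    have k3 := mul_le_mul_of_nonneg_left k1 Γ0
    have CT0 : 0 ≤ CT := by simpa using a17 ∅ (by simp)
    have k4 := mul_le_mul_of_nonneg_left U1
      (show 0 ≤ Real.exp (144 * D) * (w + 1) * M0 * CT by positivity)
    have k5 := mul_le_mul_of_nonneg_right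
      (a18.trans (mul_le_mul_of_nonneg_left lB ε0.le)) U0
    have k6 : Gam G Ps * (Gam G Ps * ((b ^ j : ℕ) * (M0 * (d + 1 : ℕ) * Real.log N))) ≤
        B * (B * (τ * (B * l))) := by
      rw [← hl]
      gcongr
      exact_mod_cast a16
    have k7 := mul_le_mul_of_nonneg_right (hk 3 (by omega)) l0.le
    have k8 := mul_nonneg (pτ 3) l0.le
    linarith only [k2, k3, k4, k5, k6, k7, k8]
  · have pQ := fun p hp => H.prime p (QP hp)
    have r1 : (1 : ℝ) ≤ (b ^ r : ℕ) := by exact_mod_cast Nat.one_le_pow _ _ (by omega)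
    have k0 := (rep_Ph pQ (fun p hp => H.h0 p (QP hp)) r1
      fun p hp => Nat.cast_le.2 (mQ p hp).2.2.1).mono (subset_refl _) (H.le_K QP) le_rfl
    have e1 : ((b ^ r : ℕ) : ℝ) * (b ^ r : ℕ) = (b ^ (2 * r) : ℕ) := by push_cast; ring
    have k1 := Rep.mul pQ k0 k0 (D := B) fun T hT q => H.dv T (hT.trans QP)
      (Nat.cast_le.1 (q.trans (e1.trans_le (Nat.cast_le.2 (hp (by omega))))))
    have e2 := EX_Ph QP H.hg
    rw [← hh'] at e2
    have k2 := H.up (N := N) L0 sP QP (dz fun p hp => (mQ p hp).2.2.2.1).symm ξ1 k1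
      (fun T => mul_self_nonneg _) (by rw [e2]; positivity)
      (one_le_mul_of_one_le_of_one_le r1 r1) (by rw [e1]; exact ξ3 _ (by omega))
    rw [← mul_assoc, ← hU, e2] at k2
    simp only [← mul_div_assoc]
    rw [← sum_div, div_le_iff₀ (by positivity)]
    have k3 := mul_le_mul_of_nonneg_right t1 (show 0 ≤ (B : ℝ) ^ 12 by positivity)
    have k4 := hk 12 (by omega)
    have k5 := pτ 12
    rw [div_le_iff₀ ε0] at h1
    have k6 := mul_le_mul_of_nonneg_left h1 (show 0 ≤ U * h by positivity)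
    have k7 := mul_le_mul_of_nonneg_left (one_le_pow₀ h2 (n := 2)) (show 0 ≤ ε * U by positivity)
    push_cast at k2 k3
    linarith only [k2, k3, k4, k5, k6, k7]
  · have wa := fun a (h1 : 1 ≤ a) (h2 : a + 2 ≤ J) => wi B1 a ((Bb.trans bB1).trans (bq h1)) (BY a h2)
    have wA := wa (u * e0 + (n + 1)) (by omega) (by omega)
    have wk := fun k (hk : k < n) => wa (u * e k + k) (w4 k) (by have := w2 k hk; omega)
    have mono : Monotone (B1 ^ ·) := fun _ _ => hq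
    have ws : ∀ a, win P (B1 ^ ·) a ⊆ P := fun a => filter_subset _ _
    have wg : ∀ a, 1 ≤ a → a + 2 ≤ J → γ ≤ ∑ p ∈ win P (B1 ^ ·) a, gg G p := fun a h1 h2 => by
      refine le_trans ?_ ((a2 a h1 (by omega)).trans_eq (wa a h1 h2).2.symm)
      rw [hγ]
      refine one_div_le_one_div_of_le (by positivity) (mul_le_mul_of_nonneg_left ?_ zero_le_two)
      exact_mod_cast (show a + 1 ≤ J by omega)
    have wc : ∀ a, 1 ≤ a → a + 2 ≤ J → ∀ t : ℤ, t.natAbs ≤ N + L →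
        (win P (B1 ^ ·) a ∩ TT G P t).card ≤ M := fun a h1 h2 t ht => by
      refine card_big (B := B1) (by omega) (f0 t) ((fb t ht).trans ?_) fun p hp => ?_
      · rw [hB1, ← pow_mul, hM, ← hj]
        refine hp ?_
        have : v * (d * J + 1) = d * (v * J) + v := by ring
        omega
      · obtain ⟨m1, m2⟩ := mem_inter.1 hp
        obtain ⟨m3, -, -, m4⟩ := (wa a h1 h2).1 p m1
        exact ⟨m3, (bq h1).trans (mem_win.1 m1).2.1.le, (m4 t).1 (mem_filter.1 m2).2⟩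
    have k := H'.lo2 (Mx := b) (M := M) (γ := γ) (A0 := win P (B1 ^ ·) (u * e0 + (n + 1)))
      (A := fun k => win P (B1 ^ ·) (u * e k + k)) (lo0 := B1 ^ (u * e0 + (n + 1)))
      (hi0 := B1 ^ (u * e0 + (n + 1) + 1)) (lo := fun k => B1 ^ (u * e k + k))
      (hi := fun k => B1 ^ (u * e k + k + 1)) L0 sP ξ1 B1' yP
      (ξ2.trans_le (Nat.cast_le.2 (by omega)))
      (le_trans (by nlinarith only [Γ1, ε1]) hX) hn (ws _) (fun _ _ => ws _)
      (fun k hk => win_disj mono (w3 _ _ _ _ (by omega) (by omega) (by omega)))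
      (fun k hk k' hk' h => win_disj mono (w3 _ _ _ _ (by omega) (by omega) h))
      (dz fun p hp => (wA.1 p hp).2.1) (fun k hk => dz fun p hp => ((wk k hk).1 p hp).2.1) ξ2.le
      (fun p hp => ⟨(mem_win.1 hp).2.1.le, (mem_win.1 hp).2.2⟩)
      (fun k _ p hp => ⟨(mem_win.1 hp).2.1.le, (mem_win.1 hp).2.2⟩)
      (by rw [← pow_mul]; exact hq (by omega)) (by rw [← pow_mul, mul_add]; exact hq (by omega))
      (fun k _ => by rw [← pow_mul]; exact hq (by omega))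
      (fun k hk => (Nat.mul_le_mul_left _ bB1).trans (by
        rw [← pow_mul, ← pow_succ, mul_add]; exact hq (by omega)))
      (by rw [← pow_mul, mul_add]; exact ((hq (by omega)).trans BJ.le).trans N1)
      (fun k hk => by
        rw [← pow_mul, mul_add]; exact ((hq (by have := w2 k hk; omega)).trans BJ.le).trans N1)
      (by omega) (fun p hp => (wA.1 p hp).2.2.2) lev (by rw [hγ]; positivity)
      (wg _ (by omega) (by omega)) (fun k hk => wg _ (w4 k) (by have := w2 k hk; omega))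
      (fun t ht => ⟨wc _ (by omega) (by omega) t ht,
        fun k hk => wc _ (w4 k) (by have := w2 k hk; omega) t ht⟩)
      (fun t : ℕ => (j + 2 * d + 2) * Real.log b ≤ lam1 f (b ^ j) t) fun t ht v1 v2 => ?_
    · have M1 : (1 : ℝ) ≤ (M : ℝ) ^ (n + 1) := one_le_pow₀ (by rw [hM]; exact_mod_cast Nat.le_add_left _ _)
      have e1 : ((N : ℝ) + L) * ((adm G W).card / W) * (Gam G Ps / 2 * γ ^ (n + 1)) =
          (M : ℝ) ^ (n + 1) * (20 * ε * U) := by rw [hU, hε]; ring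
      rw [e1] at k
      have k1 : 2 * (B : ℝ) ^ 7 * (N / (B1 ^ u : ℕ)) ≤ (M : ℝ) ^ (n + 1) * (2 * (B ^ 7 * τ)) := by
        refine le_trans ?_ (le_mul_of_one_le_left (by positivity) M1)
        rw [mul_assoc]
        gcongr
      have k2 : L * ((M : ℝ) ^ (n + 1) * (B : ℝ) ^ 2) ≤ (M : ℝ) ^ (n + 1) * (2 * (B ^ 7 * τ)) := by
        calc _ ≤ 2 * τ * ((M : ℝ) ^ (n + 1) * (B : ℝ) ^ 7) := by gcongr; omega
          _ = _ := by ring
      have k3 := mul_le_mul_of_nonneg_left (hk 7 (by omega)) (zero_le_one.trans M1)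
      exact le_of_mul_le_mul_left (by linarith only [k, k1, k2, k3]) (zero_lt_one.trans_le M1)
    · have inj : ∀ k ∈ range n, ∀ k' ∈ range n, u * e k + k = u * e k' + k' → k = k' :=
        fun k hk k' hk' q => by
          by_contra ne
          have := mem_range.1 hk
          have := mem_range.1 hk'
          exact w3 _ _ _ _ (by omega) (by omega) ne q
      have mI : ∀ a ∈ insert (u * e0 + (n + 1)) ((range n).image fun k => u * e k + k),
          1 ≤ a ∧ a + 2 ≤ J ∧ (win P (B1 ^ ·) a ∩ TT G P t).Nonempty := fun a ha => by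
        rcases mem_insert.1 ha with rfl | ha
        · exact ⟨by omega, by omega, v1⟩
        · obtain ⟨k, hk, rfl⟩ := mem_image.1 ha
          have hk' := mem_range.1 hk
          exact ⟨w4 k, by have := w2 k hk'; omega, v2 k hk'⟩
      refine le_trans ?_ (le_lam1' (f0 t) (by omega) (fun a ha => (mI a ha).2.2) fun a ha p hp => ?_)
      · rw [sum_insert, sum_image inj, hB1, Nat.cast_pow, Real.log_pow, ← mul_assoc]
        · refine mul_le_mul_of_nonneg_right ?_ (Real.log_natCast_nonneg _)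
          have k1 := Nat.mul_le_mul_right v w5
          have : (J + 2) * v = v * J + 2 * v := by ring
          exact_mod_cast (show j + 2 * d + 2 ≤ _ from le_trans (by omega) k1)
        · intro q
          obtain ⟨k, hk, q⟩ := mem_image.1 q
          have := mem_range.1 hk
          exact w3 _ _ _ _ (by omega) (by omega) (by omega) q
      · obtain ⟨m1, m2⟩ := mem_inter.1 hp
        obtain ⟨m3, -, m5, m4⟩ := (wa a (mI a ha).1 (mI a ha).2.1).1 p m1
        exact ⟨m3, m5, (m4 t).1 (mem_filter.1 m2).2⟩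
  · have k := H.lo (N := N) L0 sP ξ1 B1' yP ξ4 hX
    rw [← mul_assoc, ← hU] at k
    have k1 := mul_le_mul_of_nonneg_right t1 (show 0 ≤ 2 * (B : ℝ) ^ 8 by positivity)
    have k2 : L * (B : ℝ) ^ 2 ≤ 2 * τ * B ^ 8 := by gcongr; omega
    have k3 := hk 8 (by omega)
    linarith only [k, k1, k2, k3]

end Pool.Agent.Work.MP_51e72e_nt.SL
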