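import Pool.Agent.Work.MP_51e72e_nt.SL.E

/-!
Choice of the parameters and the sifted form of the largest prime factor theorem.
-/

set_option autoImplicit false

namespace Pool.Agent.Work.MP_51e72e_nt.SL

open Finset Filter Polynomial Pool.Agent.Lib.ANT Pool.Agent.Work.MP_51e72e_nt.Cub
  Pool.Agent.Work.MP_51e72e_nt.LP

lemma exists_r (m : ℕ) (H : ℝ) : ∃ r : ℕ, H ≤ ∑ a ∈ Ico m r, 1 / (2 * ((a : ℝ) + 1)) := by
  obtain ⟨r, h1, h2⟩ := ((Real.tendsto_sum_range_one_div_nat_succ_atTop.eventually_ge_atTop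
    (2 * H + ∑ i ∈ range m, 1 / ((i : ℝ) + 1))).and (eventually_ge_atTop m)).exists
  refine ⟨r, ?_⟩
  rw [← sum_range_add_sum_Ico _ h2] at h1
  have e : ∑ a ∈ Ico m r, 1 / ((a : ℝ) + 1) = 2 * ∑ a ∈ Ico m r, 1 / (2 * ((a : ℝ) + 1)) := by
    rw [mul_sum]
    exact sum_congr rfl fun a _ => by field_simp
  linarith only [h1, e]

lemma prod_gg_nonneg (G : ℤ[X]) (z : ℕ) :
    0 ≤ ∏ p ∈ (range (z + 1)).filter Nat.Prime, (1 - gg G p) :=
  prod_nonneg fun p _ => sub_nonneg.2 (div_le_one_of_le₀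
    (Nat.cast_le.2 ((card_filter_le _ _).trans_eq (card_range p))) (Nat.cast_nonneg _))

open Classical in
theorem main_deg (D d : ℕ) (d2 : 2 ≤ d) (dD : d ≤ D) : ∃ c0 : ℝ, 0 < c0 ∧ ∀ c : ℝ, 0 < c → c ≤ c0 →
    ∀ f G0 : ℤ[X], Irreducible f → f.natDegree = d → 0 < f.leadingCoeff → f ∣ G0 →
    (∀ p : ℕ, p.Prime → omega G0 p ≤ D) → ∀ᶠ N : ℕ in atTop, ∀ z : ℕ, (z : ℝ) ≤ (N : ℝ) ^ c →
    c * N * ∏ p ∈ (range (z + 1)).filter Nat.Prime, (1 - gg G0 p) ≤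
      (((Icc 1 N).filter fun t : ℕ => (∀ p : ℕ, p.Prime → p ≤ z → ¬ (p : ℤ) ∣ G0.eval (t : ℤ)) ∧
        ∃ p : ℕ, p.Prime ∧ (p : ℤ) ∣ f.eval (t : ℤ) ∧ (N : ℝ) ^ (1 + c) < p).card : ℝ) := by
  obtain ⟨n, e0, e, hn, he0, he, hL⟩ := Deg.level_all' d d2
  obtain ⟨S, hS⟩ : ∃ S, S = e0 + ∑ k ∈ range n, e k := ⟨_, rfl⟩
  obtain ⟨u, hu⟩ : ∃ u, u = n + 3 := ⟨_, rfl⟩
  obtain ⟨J, hJ⟩ : ∃ J, J = u * S := ⟨_, rfl⟩
  obtain ⟨M, hM⟩ : ∃ M, M = d * J + 1 := ⟨_, rfl⟩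
  obtain ⟨γ, hγ⟩ : ∃ γ : ℝ, γ = 1 / (2 * (J : ℝ)) := ⟨_, rfl⟩
  obtain ⟨ε, hε⟩ : ∃ ε : ℝ, ε = γ ^ (n + 1) / (40 * (M : ℝ) ^ (n + 1)) := ⟨_, rfl⟩
  have J0 : 0 < J := hJ ▸ Nat.mul_pos (by omega) (by omega)
  have J1 : (1 : ℝ) ≤ J := by exact_mod_cast J0
  have γ0 : 0 < γ := by rw [hγ]; positivity
  have γ1 : γ ≤ 1 := by
    rw [hγ, div_le_one (by positivity)]
    linarith only [J1]
  have M1 : (1 : ℝ) ≤ (M : ℝ) ^ (n + 1) :=
    one_le_pow₀ (by rw [hM]; exact_mod_cast Nat.le_add_left _ _)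
  have ε0 : 0 < ε := by rw [hε]; positivity
  have ε1 : ε ≤ 1 / 20 := by
    rw [hε, div_le_iff₀ (by positivity)]
    linarith only [M1, pow_le_one₀ (n := n + 1) γ0.le γ1]
  have ε2 : γ ^ (n + 1) = 40 * ε * (M : ℝ) ^ (n + 1) := by
    rw [hε]
    field_simp
  obtain ⟨s0, hs0⟩ := exists_nat_ge (6 * (D : ℝ) / ε)
  obtain ⟨s, hs⟩ : ∃ s, s = s0 + 10 := ⟨_, rfl⟩
  obtain ⟨r, hr⟩ := exists_r (2 * d + 1) (1 / ε)
  obtain ⟨v0, hv0⟩ := exists_nat_ge (((d : ℝ) + 1) / ε)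
  obtain ⟨v, hv⟩ : ∃ v, v = v0 + (2 * r + 2 * d + 6) := ⟨_, rfl⟩
  have vJ := Nat.le_mul_of_pos_right v J0
  obtain ⟨j, hj⟩ : ∃ j, v * J = j + 2 := Nat.exists_eq_add_of_le' (by omega)
  obtain ⟨K, hK⟩ : ∃ K, K = (2 * s + 1) * (j + 2) := ⟨_, rfl⟩
  refine ⟨min (ε / (d + 1)) (1 / ((K + 1 : ℕ) : ℝ)), by positivity,
    fun c c0 hc f G0 hf hd hl fG hω => ?_⟩
  have c1 := (le_div_iff₀ (by positivity)).1 (hc.trans (min_le_left _ _))
  have c2 := (le_div_iff₀ (by positivity)).1 (hc.trans (min_le_right _ _))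
  obtain ⟨w, hw⟩ : ∃ w, w = 2 * D + 1 + f.leadingCoeff.natAbs := ⟨_, rfl⟩
  obtain ⟨C0, a10⟩ := eval_le f
  obtain ⟨B0, a12⟩ := lower1_C hf (by omega)
  obtain ⟨M0, a15⟩ := roots_pow hf (by omega)
  obtain ⟨CT, -, a17⟩ := tail (2 * D)
  rw [hd] at a10 a12
  have tb := tendsto_pow_nat (k := 2 * s + 1) (by omega)
  have t1 := (tendsto_pow_nat (k := v) (by omega)).comp tb
  have lev := ((tendsto_pow_nat (k := u) (by omega)).comp t1).eventually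
    (hL f hf hd hl (WW w) (WW_pos w) fun p hp h => dvd_WW hp (by
      have := Nat.le_of_dvd (Int.natAbs_pos.2 hl.ne') (Int.natCast_dvd.1 h)
      omega))
  have wl : ∀ m : ℕ, ∀ᶠ B : ℕ in atTop, ∀ a : ℕ, 1 ≤ a → a < m → 1 / (2 * ((a : ℝ) + 1)) ≤
      ∑ p ∈ (Ioc (B ^ a) (B ^ (a + 1))).filter Nat.Prime, (omega f p : ℝ) / p := fun m =>
    ((eventually_all_finset (Ico 1 m)).2 fun a ha =>
      window_lower hf (by omega) a (mem_Ico.1 ha).1).mono fun B h a h1 h2 =>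
        h a (mem_Ico.2 ⟨h1, h2⟩)
  refine eventually_root (J := K) (by rw [hK]; positivity) ?_
  filter_upwards [lev, t1.eventually (wl J), tb.eventually (wl r),
    ((tendsto_pow_nat (k := j) (by omega)).comp tb).eventually (sum_omega_log hf (by omega) ε0),
    eventually_divisors_le (K + 1) (η := 1 / ((D + 1 : ℕ) : ℝ)) (by positivity),
    eventually_log_pow_le (Real.exp (144 * D) * (j * (2 * s + 1 : ℕ)) ^ (2 * D)) (2 * D) one_pos,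
    eventually_ge_atTop (WW w + w + C0 * 4 ^ d + M0 * (d + 1) + 2),
    tendsto_logB.eventually_ge_atTop 14, tendsto_logB.eventually_ge_atTop B0,
    tendsto_natCast_atTop_atTop.eventually_ge_atTop (1 / ε),
    (tendsto_logB.const_mul_atTop ε0).eventually_ge_atTop
      (Real.exp (144 * D) * (w + 1) * M0 * CT * WW w)]
    with B a1 a2 a3 a4 a5 a6 a7 a9 a13 a14 a18 N N1 N2 z hz
  simp only [Function.comp] at a1 a2 a3 a4
  have B1 : (1 : ℝ) ≤ B := by exact_mod_cast (show 1 ≤ B by omega)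
  have N3 : N ≤ B ^ (K + 1) := N2.trans (by rw [pow_succ']; exact Nat.mul_le_mul_right _ (by omega))
  have zB : z ≤ B := by
    refine Nat.cast_le.1 (hz.trans ((Real.rpow_le_rpow (Nat.cast_nonneg _) (Nat.cast_le.2 N3)
      c0.le).trans ?_))
    rw [Nat.cast_pow, ← Real.rpow_natCast, ← Real.rpow_mul (Nat.cast_nonneg _)]
    exact (Real.rpow_le_rpow_of_exponent_le B1 (by rwa [mul_comm])).trans_eq (Real.rpow_one _)
  rw [hK, pow_mul] at N1 N2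
  have e1 : (((B ^ (2 * s + 1)) ^ v) ^ u) ^ S = (B ^ (2 * s + 1)) ^ (j + 2) := by
    rw [← pow_mul, ← pow_mul, ← hJ, hj]
  rw [← hS] at a1
  refine le_trans ?_ (fin hf hd d2 dD fG hω hn he0 he hu (hS ▸ hJ) hM hγ ε2 ε0 ε1 (s := s) ?_
    (by omega) hr (by omega) ?_ hj c0 (by linarith only [c1, c0]) (w := w) (by omega) rfl rfl N1 N2
    zB (by omega) (fun L h1 h2 => a1 N L (e1 ▸ N1) ?_ h1 h2) a2 a3 a4 (fun m hm => ?_) ?_
    (by omega) (by omega) a9 a10 (by omega) a12 a13 a14 (fun p hp e => a15 p hp e N) (by omega)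
    a17 a18)
  · refine mul_le_mul_of_nonneg_right (mul_le_mul_of_nonneg_right ?_ (Nat.cast_nonneg _))
      (prod_gg_nonneg _ _)
    rw [le_div_iff₀ (by positivity)]
    linarith only [c1, ε0]
  · rw [div_le_iff₀ ε0] at hs0
    rw [hs]
    push_cast
    linarith only [hs0, ε0]
  · rw [div_le_iff₀ ε0] at hv0
    have := mul_le_mul_of_nonneg_left (Nat.cast_le.2 (show v0 ≤ v by omega)) ε0.le
    linarith only [hv0, this]
  · rw [pow_succ', e1]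
    refine N2.trans (Nat.mul_le_mul_right _ ?_)
    exact (show 2 ≤ B by omega).trans ((Nat.le_self_pow (by omega) _).trans
      ((Nat.le_self_pow (by omega) _).trans (Nat.le_self_pow (by omega) _)))
  · refine (Nat.cast_le (α := ℝ)).1 ?_
    rw [Nat.cast_pow]
    refine (pow_le_pow_left₀ (Nat.cast_nonneg _) (a5 m (hm.trans N3)) _).trans (le_of_eq ?_)
    rw [← Real.rpow_natCast, ← Real.rpow_mul (Nat.cast_nonneg _),
      one_div_mul_cancel (by positivity), Real.rpow_one]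
  · rw [Real.rpow_one] at a6
    refine le_trans ?_ a6
    rw [Nat.cast_pow, Nat.cast_pow, Real.log_pow, Real.log_pow, ← mul_assoc, mul_pow, mul_assoc]
    gcongr
    linarith only [a9]

open Classical in
theorem sifted_largest (D : ℕ) : ∃ c : ℝ, 0 < c ∧ ∀ F : Finset ℤ[X],
    (∀ g ∈ F, Irreducible g ∧ 0 < g.natDegree) → ∑ g ∈ F, g.natDegree = D →
    ∀ f ∈ F, 2 ≤ f.natDegree → ∀ᶠ N : ℕ in atTop, ∀ z : ℕ, (z : ℝ) ≤ (N : ℝ) ^ c →
    c * N * ∏ p ∈ (range (z + 1)).filter Nat.Prime, (1 - (((range p).filter fun n : ℕ =>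
        (p : ℤ) ∣ ∏ g ∈ F, g.eval (n : ℤ)).card : ℝ) / p) ≤
      (((Icc 1 N).filter fun n : ℕ =>
        (∀ g ∈ F, ∀ p : ℕ, p.Prime → p ≤ z → ¬ (p : ℤ) ∣ g.eval (n : ℤ)) ∧
        ∃ p : ℕ, p.Prime ∧ (p : ℤ) ∣ f.eval (n : ℤ) ∧ (N : ℝ) ^ (1 + c) < p).card : ℝ) := by
  choose! c0 h0 h1 using main_deg D
  have hc : ∃ c : ℝ, 0 < c ∧ ∀ d ∈ Icc 2 D, c ≤ c0 d := by
    rcases (Icc 2 D).eq_empty_or_nonempty with k | k
    · exact ⟨1, one_pos, by simp [k]⟩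
    · obtain ⟨d, hd, k⟩ := exists_min_image _ c0 k
      exact ⟨c0 d, h0 d (mem_Icc.1 hd).1 (mem_Icc.1 hd).2, k⟩
  obtain ⟨c, hc0, hc⟩ := hc
  refine ⟨c, hc0, fun F hF hD f hf d2 => ?_⟩
  have dD : f.natDegree ≤ D := hD ▸ single_le_sum (f := fun g : ℤ[X] => g.natDegree)
    (fun _ _ => Nat.zero_le _) hf
  have hp : (∏ g ∈ F, g).IsPrimitive := prod_induction _ _ (fun _ _ => IsPrimitive.mul)
    isPrimitive_one fun g hg => (hF g hg).1.isPrimitive (hF g hg).2.ne'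
  have hω : ∀ p : ℕ, p.Prime → omega (∏ g ∈ F, g) p ≤ D := fun p pp =>
    (omega_le_natDegree hp pp).trans (hD ▸ natDegree_prod_le F fun g => g)
  have fG : f ∣ ∏ g ∈ F, g := dvd_prod_of_mem (fun g => g) hf
  have k := h1 _ d2 dD c hc0 (hc _ (mem_Icc.2 ⟨d2, dD⟩))
  have i0 := (hF f hf).1
  have k2 : ∀ᶠ N : ℕ in atTop, ∀ z : ℕ, (z : ℝ) ≤ (N : ℝ) ^ c →
      c * N * ∏ p ∈ (range (z + 1)).filter Nat.Prime, (1 - gg (∏ g ∈ F, g) p) ≤
      (((Icc 1 N).filter fun t : ℕ =>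
        (∀ p : ℕ, p.Prime → p ≤ z → ¬ (p : ℤ) ∣ (∏ g ∈ F, g).eval (t : ℤ)) ∧
        ∃ p : ℕ, p.Prime ∧ (p : ℤ) ∣ f.eval (t : ℤ) ∧ (N : ℝ) ^ (1 + c) < p).card : ℝ) := by
    rcases lt_or_gt_of_ne (leadingCoeff_ne_zero.mpr i0.ne_zero) with h | h
    · simpa only [eval_neg, dvd_neg] using k (-f) _ ((Associated.refl f).neg_right.irreducible i0)
        (by simp) (by simpa using h) (neg_dvd.2 fG) hω
    · exact k f _ i0 rfl h fG hω
  filter_upwards [k2] with N hN z hz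
  refine le_trans (le_of_eq ?_) ((hN z hz).trans (Nat.cast_le.2 (card_le_card fun t ht => ?_)))
  · simp only [gg, omega, eval_prod]
  · obtain ⟨a, b, c⟩ := mem_filter.1 ht
    exact mem_filter.2 ⟨a, fun g hg p pp q h =>
      b p pp q (h.trans (eval_dvd (dvd_prod_of_mem (fun g => g) hg))), c⟩

end Pool.Agent.Work.MP_51e72e_nt.SL
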